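import Mathlib
import Pool.Agent.H329R2.AD.Defs

/-!
# Pointwise minorant for the divisor function `d_{k+1}`

`(k+1) ∑_{m ∣ n, m ≤ y} d_k(m) ≤ d_{k+1}(n)` when `y² < n`.
-/

set_option autoImplicit false

open Finset Pool.Agent.H329R2.AD

namespace Pool.Agent.H380R2.ADA

lemma fib (k n : ℕ) (i : Fin (k + 1)) (P : ℕ → Prop) [DecidablePred P] :
    ((Nat.finMulAntidiag (k + 1) n).filter (fun v => P (n / v i))).card
      = ∑ m ∈ n.divisors.filter P, (Nat.finMulAntidiag k m).card := by
  have key : ∀ v ∈ Nat.finMulAntidiag (k + 1) n, n ≠ 0 ∧ v i ≠ 0 ∧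
      v i * ∏ j, v (i.succAbove j) = n ∧ n / v i = ∏ j, v (i.succAbove j) := by
    intro v hv
    have h1 := Nat.mem_finMulAntidiag.1 hv
    have h2 : v i * ∏ j, v (i.succAbove j) = n := by
      rw [← h1.1, Fin.prod_univ_succAbove v i]
    have h3 : v i ≠ 0 := by
      intro h
      rw [h, zero_mul] at h2
      exact h1.2 h2.symm
    exact ⟨h1.2, h3, h2, by rw [← h2]; exact Nat.mul_div_cancel_left _ (Nat.pos_of_ne_zero h3)⟩
  rw [Finset.card_eq_sum_card_fiberwise (f := fun v => ∏ j, v (i.succAbove j))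
    (t := n.divisors.filter P)]
  · refine Finset.sum_congr rfl ?_
    intro m hm
    rw [mem_filter, Nat.mem_divisors] at hm
    obtain ⟨⟨hmn, hn⟩, hP⟩ := hm
    obtain ⟨c, hc⟩ := hmn
    have hm0 : m ≠ 0 := by
      rintro rfl
      rw [zero_mul] at hc
      exact hn hc
    have hc0 : c ≠ 0 := by
      rintro rfl
      rw [mul_zero] at hc
      exact hn hc
    refine Finset.card_nbij' (fun v j => v (i.succAbove j)) (fun w => i.insertNth c w) ?_ ?_ ?_ ?_
    · intro v hv
      simp only [mem_coe, mem_filter] at hv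
      simp only [mem_coe]
      rw [Nat.mem_finMulAntidiag]
      exact ⟨hv.2, hm0⟩
    · intro w hw
      simp only [mem_coe] at hw
      rw [Nat.mem_finMulAntidiag] at hw
      simp only [mem_coe, mem_filter]
      have hprod : ∏ j, (i.insertNth c w : Fin (k + 1) → ℕ) j = n := by
        rw [Fin.prod_univ_succAbove _ i]
        simp only [Fin.insertNth_apply_same, Fin.insertNth_apply_succAbove]
        rw [hw.1, hc, mul_comm]
      refine ⟨⟨?_, ?_⟩, ?_⟩
      · rw [Nat.mem_finMulAntidiag]
        exact ⟨hprod, hn⟩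
      · simp only [Fin.insertNth_apply_same]
        rw [hc, Nat.mul_div_cancel _ (Nat.pos_of_ne_zero hc0)]
        exact hP
      · simp only [Fin.insertNth_apply_succAbove]
        exact hw.1
    · intro v hv
      simp only [mem_coe, mem_filter] at hv
      obtain ⟨⟨hv1, _⟩, hv3⟩ := hv
      obtain ⟨_, hvi, hvp, _⟩ := key v hv1
      have hvc : v i = c := by
        rw [hv3, hc, mul_comm] at hvp
        exact Nat.eq_of_mul_eq_mul_left (Nat.pos_of_ne_zero hm0) hvp
      funext j
      refine Fin.succAboveCases i ?_ ?_ j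
      · simp only [Fin.insertNth_apply_same]
        exact hvc.symm
      · intro j
        simp only [Fin.insertNth_apply_succAbove]
    · intro w hw
      funext j
      simp only [Fin.insertNth_apply_succAbove]
  · intro v hv
    simp only [mem_coe, mem_filter] at hv
    obtain ⟨hv1, hv2⟩ := hv
    obtain ⟨hn, hvi, hvp, hvd⟩ := key v hv1
    simp only [mem_coe, mem_filter, Nat.mem_divisors]
    refine ⟨⟨⟨v i, ?_⟩, hn⟩, ?_⟩
    · rw [mul_comm, hvp]
    · rw [← hvd]
      exact hv2

lemma zeta_pow_eq (k : ℕ) : ∀ n : ℕ,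
    (((ArithmeticFunction.zeta : ArithmeticFunction ℕ) ^ k) n : ℕ) = (Nat.finMulAntidiag k n).card := by
  induction k with
  | zero =>
    intro n
    rw [pow_zero, ArithmeticFunction.one_apply]
    by_cases h : n = 1
    · subst h
      simp [Nat.finMulAntidiag_one]
    · rw [if_neg h, Nat.finMulAntidiag_zero_left h]
      rfl
  | succ k ih =>
    intro n
    rw [pow_succ, ArithmeticFunction.mul_zeta_apply]
    have := fib k n 0 (fun _ => True)
    rw [Finset.filter_true, Finset.filter_true] at this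
    rw [this]
    exact Finset.sum_congr rfl (fun m _ => ih m)

/-- `dk k n` counts the `k`-tuples with product `n` -/
theorem dk_eq_card (k n : ℕ) : dk k n = ((Nat.finMulAntidiag k n).card : ℝ) := by
  unfold dk
  rw [zeta_pow_eq]

/-- A (pointwise minorant) -/
theorem ptw (k n y : ℕ) (hn : y ^ 2 < n) :
    ((k : ℝ) + 1) * ∑ m ∈ n.divisors.filter (fun m => m ≤ y), dk k m ≤ dk (k + 1) n := by
  have h1 : ∑ m ∈ n.divisors.filter (fun m => m ≤ y), dk k m
      = ((∑ m ∈ n.divisors.filter (fun m => m ≤ y), (Nat.finMulAntidiag k m).card : ℕ) : ℝ) := by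
    push_cast
    exact Finset.sum_congr rfl (fun m _ => dk_eq_card k m)
  rw [h1, dk_eq_card]
  have h2 : (k + 1) * ∑ m ∈ n.divisors.filter (fun m => m ≤ y), (Nat.finMulAntidiag k m).card
      = ∑ i : Fin (k + 1),
        ((Nat.finMulAntidiag (k + 1) n).filter (fun v => n / v i ≤ y)).card := by
    rw [Finset.sum_congr rfl (fun i _ => fib k n i (fun m => m ≤ y))]
    rw [Finset.sum_const, Finset.card_univ, Fintype.card_fin, smul_eq_mul]
  have h3 : ∑ i : Fin (k + 1),
        ((Nat.finMulAntidiag (k + 1) n).filter (fun v => n / v i ≤ y)).card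
      ≤ (Nat.finMulAntidiag (k + 1) n).card := by
    rw [← Finset.card_biUnion]
    · refine Finset.card_le_card ?_
      intro v hv
      rw [mem_biUnion] at hv
      obtain ⟨i, _, hi⟩ := hv
      exact (mem_filter.1 hi).1
    · intro i _ j _ hij
      refine Finset.disjoint_left.2 ?_
      intro v hvi hvj
      rw [mem_filter] at hvi hvj
      obtain ⟨hv, hi⟩ := hvi
      obtain ⟨_, hj⟩ := hvj
      have hv1 := Nat.mem_finMulAntidiag.1 hv
      have hdvd : v i * v j ∣ n := by
        rw [← hv1.1, ← Finset.prod_pair (f := v) hij]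
        exact Finset.prod_dvd_prod_of_subset _ _ _ (Finset.subset_univ _)
      have hdi : v i ∣ n := (Dvd.intro _ rfl).trans hdvd
      have hn0 : 0 < n := Nat.pos_of_ne_zero hv1.2
      have hji : v j ≤ n / v i := by
        have hi0 : 0 < v i := Nat.pos_of_dvd_of_pos hdi hn0
        rw [Nat.le_div_iff_mul_le hi0, mul_comm]
        exact Nat.le_of_dvd hn0 hdvd
      have hdj : v j ∣ n := (Dvd.intro_left _ rfl).trans hdvd
      have h4 : n = v j * (n / v j) := (Nat.mul_div_cancel' hdj).symm
      have h5 : v j * (n / v j) ≤ y * y := Nat.mul_le_mul (hji.trans hi) hj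
      rw [← h4] at h5
      nlinarith
  rw [← h2] at h3
  exact_mod_cast h3

end Pool.Agent.H380R2.ADA
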