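import Pool.Agent.H361R2.PP.Iface4

/-!
Task PP-LEB (helper380): from the five numbers theorem to the lower density one quarter of the
values approximated by normalised prime gaps.
-/

set_option autoImplicit false

open Finset MeasureTheory

namespace Pool.Agent.H380R2.PPLeb

open Pool.Agent.H361R2.PP

theorem near_mono {x ε ε' c : ℝ} {N : ℕ} (h : ε ≤ ε') (hN : Near x ε c N) : Near x ε' c N := by
  classical
  unfold Near at *
  refine hN.trans ?_
  have : ((range N).filter (fun j =>
      |((P (j + 1) : ℝ) - P j) / Real.log (P j) - x| < ε)) ⊆ ((range N).filter (fun j =>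
      |((P (j + 1) : ℝ) - P j) / Real.log (P j) - x| < ε')) := by
    intro j hj
    rw [Finset.mem_filter] at hj ⊢
    exact ⟨hj.1, lt_of_lt_of_le hj.2 h⟩
  exact_mod_cast Finset.card_le_card this

/-- Among five reals some difference is approximated with positive upper density. -/
theorem five (hF : Fiv) (β : Fin 5 → ℝ) (hβ : StrictMono β) :
    ∃ i j : Fin 5, i < j ∧ β j - β i ∈ LP := by
  by_contra hcon
  push Not at hcon
  have h1 : ∀ z : Fin 5 × Fin 5, ∃ ε : ℝ, 0 < ε ∧ (z.1 < z.2 → ∀ c : ℝ, 0 < c → ∃ N₀ : ℕ,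
      ∀ N : ℕ, N₀ ≤ N → ¬ Near (β z.2 - β z.1) ε c N) := by
    rintro ⟨i, j⟩
    by_cases hij : i < j
    · have h2 := hcon i j hij
      have h3 : 0 ≤ β j - β i := sub_nonneg.mpr (hβ hij).le
      have h4 : ∃ ε : ℝ, 0 < ε ∧ ∀ c : ℝ, 0 < c → ∃ N₀ : ℕ,
          ∀ N : ℕ, N₀ ≤ N → ¬ Near (β j - β i) ε c N := by
        by_contra h5
        push Not at h5
        exact h2 ⟨h3, fun ε hε => h5 ε hε⟩
      obtain ⟨ε, hε, h5⟩ := h4
      exact ⟨ε, hε, fun _ => h5⟩
    · exact ⟨1, one_pos, fun h => absurd h hij⟩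
  choose e he hne using h1
  obtain ⟨z₀, -, hz₀⟩ := Finset.exists_min_image (Finset.univ : Finset (Fin 5 × Fin 5)) e
    ⟨(0, 0), Finset.mem_univ _⟩
  obtain ⟨c, hc, N₀, hN₀⟩ := hF β hβ (e z₀) (he z₀)
  have h6 : ∀ z : Fin 5 × Fin 5, ∃ M : ℕ, z.1 < z.2 → ∀ N : ℕ, M ≤ N →
      ¬ Near (β z.2 - β z.1) (e z) c N := by
    intro z
    by_cases hz : z.1 < z.2
    · obtain ⟨M, hM⟩ := hne z hz c hc
      exact ⟨M, fun _ => hM⟩
    · exact ⟨0, fun h => absurd h hz⟩
  choose M hM using h6
  set N := max N₀ (Finset.univ.sup M) with hN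
  obtain ⟨i, j, hij, hnear⟩ := hN₀ N (le_max_left _ _)
  refine hM (i, j) hij N ?_ (near_mono (hz₀ (i, j) (Finset.mem_univ _)) hnear)
  exact (Finset.le_sup (f := M) (Finset.mem_univ (i, j))).trans (le_max_right _ _)

/-- No difference of two elements of `s` lies in `LP`. -/
def Q (s : Finset ℝ) : Prop := ∀ a ∈ s, ∀ b ∈ s, a < b → b - a ∉ LP

theorem Q_card (hF : Fiv) (s : Finset ℝ) (hs : Q s) (h5 : s.card = 5) : False := by
  obtain ⟨i, j, hij, hm⟩ := five hF (s.orderEmbOfFin h5) (s.orderEmbOfFin h5).strictMono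
  exact hs _ (s.orderEmbOfFin_mem h5 i) _ (s.orderEmbOfFin_mem h5 j)
    ((s.orderEmbOfFin h5).strictMono hij) hm

theorem leb_of (hF : Fiv) : Leb := by
  classical
  -- a maximal set without differences in `LP`
  have hex : ∃ s : Finset ℝ, s.Nonempty ∧ s.card ≤ 4 ∧ Q s ∧
      ∀ y, (∀ a ∈ s, a < y) → ∃ a ∈ s, y - a ∈ LP := by
    set p : ℕ → Prop := fun n => ∃ s : Finset ℝ, Q s ∧ s.card = n with hp
    have p1 : p 1 := ⟨{0}, by
      intro a ha b hb hab
      rw [Finset.mem_singleton] at ha hb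
      rw [ha, hb] at hab
      exact absurd hab (lt_irrefl _), Finset.card_singleton _⟩
    set n := Nat.findGreatest p 4 with hn
    have hn1 : 1 ≤ n := Nat.le_findGreatest (by norm_num) p1
    have hn4 : n ≤ 4 := Nat.findGreatest_le 4
    obtain ⟨s, hs, hcard⟩ : p n := Nat.findGreatest_spec (by norm_num : 1 ≤ 4) p1
    refine ⟨s, Finset.card_pos.mp (by omega), by omega, hs, ?_⟩
    intro y hy
    by_contra hcon
    push Not at hcon
    have hys : y ∉ s := fun h => lt_irrefl _ (hy y h)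
    have hQ : Q (insert y s) := by
      intro a ha b hb hab
      rw [Finset.mem_insert] at ha hb
      rcases hb with rfl | hb
      · rcases ha with rfl | ha
        · exact absurd hab (lt_irrefl _)
        · exact hcon a ha
      · rcases ha with rfl | ha
        · exact absurd (hab.trans (hy b hb)) (lt_irrefl _)
        · exact hs a ha b hb hab
    have hc : (insert y s).card = n + 1 := by rw [Finset.card_insert_of_notMem hys, hcard]
    rcases Nat.lt_or_ge n 4 with h4 | h4
    · have := Nat.le_findGreatest (P := p) (n := 4) (m := n + 1) (by omega) ⟨_, hQ, hc⟩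
      omega
    · exact Q_card hF _ hQ (by omega)
  obtain ⟨s, hne, hcard, -, hcov⟩ := hex
  set M := s.max' hne with hM
  set m := s.min' hne with hm
  refine ⟨M - m, fun T hT => ?_⟩
  set T' : ℝ := T - (M - m) with hT'
  set S : Set ℝ := LP ∩ Set.Icc 0 T with hS
  rcases le_or_gt T' 0 with hneg | hpos
  · rw [ENNReal.ofReal_of_nonpos (by linarith)]
    exact zero_le
  have hsub : Set.Ioc M (M + T') ⊆ ⋃ a ∈ s, (fun y => y + -a) ⁻¹' S := by
    intro y hy
    obtain ⟨a, ha, hLP⟩ := hcov y (fun a ha => lt_of_le_of_lt (s.le_max' a ha) hy.1)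
    simp only [Set.mem_iUnion]
    refine ⟨a, ha, ?_⟩
    have h1 : a ≤ M := s.le_max' a ha
    have h2 : m ≤ a := s.min'_le a ha
    show y + -a ∈ LP ∩ Set.Icc 0 T
    rw [← sub_eq_add_neg]
    exact ⟨hLP, by linarith [hy.1], by linarith [hy.2]⟩
  have hvol : ENNReal.ofReal T' ≤ 4 * volume S := by
    calc ENNReal.ofReal T' = volume (Set.Ioc M (M + T')) := by
          rw [Real.volume_Ioc]; congr 1; ring
      _ ≤ volume (⋃ a ∈ s, (fun y => y + -a) ⁻¹' S) := measure_mono hsub
      _ ≤ ∑ a ∈ s, volume ((fun y => y + -a) ⁻¹' S) := measure_biUnion_finset_le _ _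
      _ = ∑ a ∈ s, volume S := by
          apply Finset.sum_congr rfl
          intro a _
          exact measure_preimage_add_right volume (-a) S
      _ = (s.card : ENNReal) * volume S := by rw [Finset.sum_const, nsmul_eq_mul]
      _ ≤ 4 * volume S := by
          apply mul_le_mul_left
          exact_mod_cast hcard
  rw [ENNReal.ofReal_div_of_pos (by norm_num : (0:ℝ) < 4)]
  have h4 : ENNReal.ofReal 4 = 4 := by norm_num
  rw [h4]
  exact ENNReal.div_le_of_le_mul' hvol

end Pool.Agent.H380R2.PPLeb
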