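import Mathlib

set_option autoImplicit false

open Finset Complex

namespace Pool.Agent.H380R2

/-- exponential sum at the frequency `k / M` -/
noncomputable def expSum {ι : Type*} (I : Finset ι) (φ : ι → ℕ) (M k : ℕ) : ℂ :=
  ∑ i ∈ I, exp (2 * Real.pi * Complex.I * ((k : ℂ) * (φ i : ℂ)) / (M : ℂ))

/-- number of pairs of indices with values congruent modulo `M` -/
def coll {ι : Type*} [DecidableEq ι] (I : Finset ι) (φ : ι → ℕ) (M : ℕ) : ℕ :=
  ((I ×ˢ I).filter (fun p => φ p.1 % M = φ p.2 % M)).card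

lemma geom_exp (M : ℕ) (hM : 0 < M) (d : ℤ) :
    ∑ k ∈ range M, exp (2 * Real.pi * Complex.I * ((k : ℂ) * (d : ℂ)) / (M : ℂ)) =
      if (M : ℤ) ∣ d then (M : ℂ) else 0 := by
  have hM0 : (M : ℂ) ≠ 0 := by exact_mod_cast hM.ne'
  have hpi : (2 * Real.pi * Complex.I : ℂ) ≠ 0 := Complex.two_pi_I_ne_zero
  set ω : ℂ := exp (2 * Real.pi * Complex.I * (d : ℂ) / (M : ℂ)) with hω
  have hpow : ∀ k : ℕ, exp (2 * Real.pi * Complex.I * ((k : ℂ) * (d : ℂ)) / (M : ℂ)) = ω ^ k := by
    intro k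
    rw [hω, ← Complex.exp_nat_mul]
    congr 1
    ring
  simp_rw [hpow]
  split_ifs with h
  · obtain ⟨n, hn⟩ := h
    have : ω = 1 := by
      rw [hω, Complex.exp_eq_one_iff]
      refine ⟨n, ?_⟩
      rw [hn]
      push_cast
      field_simp
    simp [this]
  · have hne : ω ≠ 1 := by
      intro hcon
      rw [hω, Complex.exp_eq_one_iff] at hcon
      obtain ⟨n, hn⟩ := hcon
      apply h
      refine ⟨n, ?_⟩
      have h1 : (2 * Real.pi * Complex.I : ℂ) * (d : ℂ) = (2 * Real.pi * Complex.I) * ((M : ℂ) * n) := by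
        rw [div_eq_iff hM0] at hn
        rw [hn]
        ring
      have h2 := mul_left_cancel₀ hpi h1
      exact_mod_cast h2
    have hM1 : ω ^ M = 1 := by
      rw [hω, ← Complex.exp_nat_mul, Complex.exp_eq_one_iff]
      refine ⟨d, ?_⟩
      field_simp
    rw [geom_sum_eq hne, hM1]
    simp

lemma sum_normSq {ι : Type*} [DecidableEq ι] (I : Finset ι) (φ : ι → ℕ) (M : ℕ) (hM : 0 < M) :
    ∑ k ∈ range M, Complex.normSq (expSum I φ M k) = (M : ℝ) * (coll I φ M : ℝ) := by
  have key : ∑ k ∈ range M, ((Complex.normSq (expSum I φ M k) : ℝ) : ℂ) =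
      (M : ℂ) * (coll I φ M : ℂ) := by
    have h1 : ∀ k : ℕ, ((Complex.normSq (expSum I φ M k) : ℝ) : ℂ) =
        ∑ p ∈ I ×ˢ I, exp (2 * Real.pi * Complex.I *
          ((k : ℂ) * (((φ p.1 : ℤ) - (φ p.2 : ℤ) : ℤ) : ℂ)) / (M : ℂ)) := by
      intro k
      rw [← Complex.mul_conj, expSum, map_sum, Finset.sum_mul_sum, Finset.sum_product]
      apply Finset.sum_congr rfl
      intro i _
      apply Finset.sum_congr rfl
      intro j _
      rw [← Complex.exp_conj, ← Complex.exp_add]
      congr 1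
      simp only [map_div₀, map_mul, Complex.conj_ofReal, Complex.conj_I, map_natCast,
        map_ofNat]
      push_cast
      ring
    simp_rw [h1]
    rw [Finset.sum_comm]
    have h2 : ∀ p ∈ I ×ˢ I, ∑ k ∈ range M, exp (2 * Real.pi * Complex.I *
          ((k : ℂ) * (((φ p.1 : ℤ) - (φ p.2 : ℤ) : ℤ) : ℂ)) / (M : ℂ)) =
        if φ p.1 % M = φ p.2 % M then (M : ℂ) else 0 := by
      intro p _
      rw [geom_exp M hM]
      congr 1
      apply propext
      constructor
      · intro h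
        have h3 : (φ p.2 : ℤ) ≡ (φ p.1 : ℤ) [ZMOD (M : ℤ)] := (Int.modEq_iff_dvd).2 h
        have h4 : φ p.2 ≡ φ p.1 [MOD M] := (Int.natCast_modEq_iff).1 h3
        exact h4.symm
      · intro h
        have h4 : φ p.2 ≡ φ p.1 [MOD M] := h.symm
        exact (Int.modEq_iff_dvd).1 ((Int.natCast_modEq_iff).2 h4)
    rw [Finset.sum_congr rfl h2, ← Finset.sum_filter, Finset.sum_const, nsmul_eq_mul, coll]
    ring
  have h3 : ((∑ k ∈ range M, Complex.normSq (expSum I φ M k) : ℝ) : ℂ) =
      (((M : ℝ) * (coll I φ M : ℝ) : ℝ) : ℂ) := by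
    push_cast
    exact key
  exact_mod_cast h3

/-- the exponential sum of the set of sums of two elements is the square -/
lemma expSum_prod {ι : Type*} (I : Finset ι) (φ : ι → ℕ) (M k : ℕ) :
    expSum (I ×ˢ I) (fun p => φ p.1 + φ p.2) M k = (expSum I φ M k) ^ 2 := by
  rw [expSum, expSum, sq, Finset.sum_mul_sum, Finset.sum_product]
  apply Finset.sum_congr rfl
  intro i _
  apply Finset.sum_congr rfl
  intro j _
  rw [← Complex.exp_add]
  congr 1
  push_cast
  ring

lemma expSum_mul {ι : Type*} (I : Finset ι) (φ : ι → ℕ) (t M k : ℕ) (ht : 0 < t) :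
    expSum I φ (t * M) (t * k) = expSum I φ M k := by
  rw [expSum, expSum]
  apply Finset.sum_congr rfl
  intro i _
  congr 1
  have ht0 : (t : ℂ) ≠ 0 := by exact_mod_cast ht.ne'
  push_cast
  rw [show (2 * Real.pi * Complex.I * ((t : ℂ) * k * (φ i))) =
    (t : ℂ) * (2 * Real.pi * Complex.I * ((k : ℂ) * (φ i))) by ring, mul_div_mul_left _ _ ht0]

/-- sum over the multiples of `t` below `t * M` -/
lemma sum_multiples (t M : ℕ) (ht : 0 < t) (g : ℕ → ℝ) :
    ∑ k ∈ (range (t * M)).filter (fun k => t ∣ k), g k = ∑ k ∈ range M, g (t * k) := by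
  symm
  apply Finset.sum_bij (fun k _ => t * k)
  · intro k hk
    rw [Finset.mem_filter, Finset.mem_range]
    rw [Finset.mem_range] at hk
    exact ⟨Nat.mul_lt_mul_of_pos_left hk ht, Dvd.intro _ rfl⟩
  · intro a _ b _ hab
    exact Nat.eq_of_mul_eq_mul_left ht hab
  · intro b hb
    rw [Finset.mem_filter, Finset.mem_range] at hb
    obtain ⟨hb1, c, rfl⟩ := hb
    refine ⟨c, ?_, rfl⟩
    rw [Finset.mem_range]
    exact Nat.lt_of_mul_lt_mul_left hb1
  · intro k _
    rfl


/-- the energy count: quadruples with `a + b ≡ c + d` modulo `M` -/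
def enr {ι : Type*} [DecidableEq ι] (I : Finset ι) (φ : ι → ℕ) (M : ℕ) : ℕ :=
  coll (I ×ˢ I) (fun p => φ p.1 + φ p.2) M

lemma sum_normSq_sq {ι : Type*} [DecidableEq ι] (I : Finset ι) (φ : ι → ℕ) (M : ℕ) (hM : 0 < M) :
    ∑ k ∈ range M, (Complex.normSq (expSum I φ M k)) ^ 2 = (M : ℝ) * (enr I φ M : ℝ) := by
  rw [enr, ← sum_normSq (I ×ˢ I) (fun p => φ p.1 + φ p.2) M hM]
  apply Finset.sum_congr rfl
  intro k _
  rw [expSum_prod, map_pow]

/-- frequencies with denominator dividing `t * M` but not `M` -/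
lemma diff_ineq {ι : Type*} [DecidableEq ι] (I : Finset ι) (φ : ι → ℕ) (t M : ℕ)
    (ht : 0 < t) (hM : 0 < M) :
    (((t * M : ℕ) : ℝ) * coll I φ (t * M) - (M : ℝ) * coll I φ M) ^ 2 ≤
      ((t * M : ℕ) : ℝ) * (((t * M : ℕ) : ℝ) * enr I φ (t * M) - (M : ℝ) * enr I φ M) := by
  have htM : 0 < t * M := Nat.mul_pos ht hM
  have hsplit : ∀ g : ℕ → ℝ, ∑ k ∈ (range (t * M)).filter (fun k => ¬ t ∣ k), g k =
      ∑ k ∈ range (t * M), g k - ∑ k ∈ range M, g (t * k) := by
    intro g
    rw [← sum_multiples t M ht g, ← Finset.sum_filter_add_sum_filter_not (range (t * M))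
      (fun k => t ∣ k) g]
    ring
  have h1 : ∑ k ∈ (range (t * M)).filter (fun k => ¬ t ∣ k), Complex.normSq (expSum I φ (t * M) k)
      = ((t * M : ℕ) : ℝ) * coll I φ (t * M) - (M : ℝ) * coll I φ M := by
    rw [hsplit, sum_normSq I φ (t * M) htM, ← sum_normSq I φ M hM]
    congr 1
    apply Finset.sum_congr rfl
    intro k _
    rw [expSum_mul I φ t M k ht]
  have h2 : ∑ k ∈ (range (t * M)).filter (fun k => ¬ t ∣ k),
      (Complex.normSq (expSum I φ (t * M) k)) ^ 2
      = ((t * M : ℕ) : ℝ) * enr I φ (t * M) - (M : ℝ) * enr I φ M := by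
    rw [hsplit (fun k => (Complex.normSq (expSum I φ (t * M) k)) ^ 2),
      sum_normSq_sq I φ (t * M) htM, ← sum_normSq_sq I φ M hM]
    congr 1
    apply Finset.sum_congr rfl
    intro k _
    rw [expSum_mul I φ t M k ht]
  rw [← h1, ← h2]
  refine le_trans (sq_sum_le_card_mul_sum_sq) ?_
  apply mul_le_mul_of_nonneg_right
  · have : ((range (t * M)).filter (fun k => ¬ t ∣ k)).card ≤ t * M := by
      refine le_trans (Finset.card_filter_le _ _) ?_
      simp
    exact_mod_cast this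
  · apply Finset.sum_nonneg
    intro k _
    positivity

lemma base_ineq {ι : Type*} [DecidableEq ι] (I : Finset ι) (φ : ι → ℕ) (M : ℕ)
    (hM : 0 < M) :
    ((M : ℝ) * coll I φ M) ^ 2 ≤ (M : ℝ) * ((M : ℝ) * enr I φ M) := by
  rw [← sum_normSq I φ M hM, ← sum_normSq_sq I φ M hM]
  refine le_trans (sq_sum_le_card_mul_sum_sq) ?_
  rw [Finset.card_range]

/-- collisions versus number of classes -/
lemma coll_ge {ι : Type*} [DecidableEq ι] (I : Finset ι) (φ : ι → ℕ) (M : ℕ) :
    (I.card : ℝ) ^ 2 ≤ ((I.image (fun i => φ i % M)).card : ℝ) * coll I φ M := by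
  classical
  set J := I.image (fun i => φ i % M) with hJ
  have h1 : (I.card : ℝ) = ∑ r ∈ J, ((I.filter (fun i => φ i % M = r)).card : ℝ) := by
    have := Finset.card_eq_sum_card_image (fun i => φ i % M) I
    rw [this]
    push_cast
    rfl
  have h2 : ((coll I φ M : ℕ) : ℝ) = ∑ r ∈ J, ((I.filter (fun i => φ i % M = r)).card : ℝ) ^ 2 := by
    have h3 : coll I φ M = ∑ r ∈ J, ((I.filter (fun i => φ i % M = r)).card) ^ 2 := by
      unfold coll
      rw [Finset.card_eq_sum_card_fiberwise (f := fun p : ι × ι => φ p.1 % M) (t := J)]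
      · apply Finset.sum_congr rfl
        intro r _
        rw [sq, ← Finset.card_product]
        congr 1
        ext p
        simp only [Finset.mem_filter, Finset.mem_product]
        constructor
        · rintro ⟨⟨⟨h1, h2⟩, h3⟩, h4⟩
          exact ⟨⟨h1, h4⟩, h2, by rw [← h3]; exact h4⟩
        · rintro ⟨⟨h1, h4⟩, h2, h5⟩
          exact ⟨⟨⟨h1, h2⟩, by rw [h4, h5]⟩, h4⟩
      · intro p hp
        rw [Finset.mem_coe, Finset.mem_filter, Finset.mem_product] at hp
        rw [hJ]
        exact Finset.mem_coe.2 (Finset.mem_image_of_mem _ hp.1.1)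
    rw [h3]
    push_cast
    rfl
  rw [h1, h2]
  exact sq_sum_le_card_mul_sum_sq

/-- upper bound for the energy when all representation numbers are at most `K` -/
lemma enr_le (S : Finset ℕ) (X K M : ℕ) (hSX : ∀ a ∈ S, a ≤ X)
    (hK : ∀ v, ((S ×ˢ S).filter (fun p => p.1 + p.2 = v)).card ≤ K) :
    enr S id M ≤ S.card ^ 2 * (K * (2 * X / M + 1)) := by
  classical
  unfold enr coll
  set P := S ×ˢ S with hP
  have h1 : ((P ×ˢ P).filter (fun q : (ℕ × ℕ) × (ℕ × ℕ) =>
      (id q.1.1 + id q.1.2) % M = (id q.2.1 + id q.2.2) % M)).card =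
      ∑ p ∈ P, (P.filter (fun p' => (p.1 + p.2) % M = (p'.1 + p'.2) % M)).card := by
    rw [Finset.card_filter, Finset.sum_product]
    apply Finset.sum_congr rfl
    intro p _
    rw [Finset.card_filter]
    rfl
  rw [h1]
  have h2 : ∀ p ∈ P, (P.filter (fun p' => (p.1 + p.2) % M = (p'.1 + p'.2) % M)).card ≤
      K * (2 * X / M + 1) := by
    intro p _
    -- split according to the quotient of the value by M
    have h3 : (P.filter (fun p' => (p.1 + p.2) % M = (p'.1 + p'.2) % M)) ⊆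
        (range (2 * X / M + 1)).biUnion
          (fun j => P.filter (fun p' => p'.1 + p'.2 = M * j + (p.1 + p.2) % M)) := by
      intro p' hp'
      rw [Finset.mem_filter] at hp'
      obtain ⟨hp'1, hp'2⟩ := hp'
      rw [Finset.mem_biUnion]
      refine ⟨(p'.1 + p'.2) / M, ?_, ?_⟩
      · rw [Finset.mem_range, Nat.lt_succ_iff]
        apply Nat.div_le_div_right
        rw [hP, Finset.mem_product] at hp'1
        have := hSX _ hp'1.1
        have := hSX _ hp'1.2
        omega
      · rw [Finset.mem_filter]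
        refine ⟨hp'1, ?_⟩
        rw [hp'2]
        exact (Nat.div_add_mod _ _).symm
    refine le_trans (Finset.card_le_card h3) ?_
    refine le_trans (Finset.card_biUnion_le) ?_
    refine le_trans (Finset.sum_le_sum (fun j _ => hK _)) ?_
    rw [Finset.sum_const, Finset.card_range, smul_eq_mul, mul_comm]
  refine le_trans (Finset.sum_le_sum h2) ?_
  rw [Finset.sum_const, smul_eq_mul, hP, Finset.card_product, sq]

end Pool.Agent.H380R2
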