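import Mathlib
import Pool.Agent.H380R2.Energy

set_option autoImplicit false

open Finset Filter Topology

namespace Pool.Agent.H380R2

/-- `r_A(n)`, the number of ordered pairs `(a,b) ∈ A × A` with `a + b = n` -/
noncomputable def rep (A : Set ℕ) (n : ℕ) : ℕ :=
  {p : ℕ × ℕ | p.1 ∈ A ∧ p.2 ∈ A ∧ p.1 + p.2 = n}.ncard

/-- Every finite set `T ⊆ S ∩ [0,x]` all of whose representation numbers are at most `K` has
`o(√x)` elements. -/
def Negligible (S : Set ℕ) : Prop :=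
  ∀ K : ℕ, ∀ ε : ℝ, 0 < ε → ∀ᶠ x : ℕ in atTop, ∀ T : Finset ℕ, (∀ a ∈ T, a ∈ S ∧ a ≤ x) →
    (∀ v, ((T ×ˢ T).filter (fun p => p.1 + p.2 = v)).card ≤ K) → (T.card : ℝ) ^ 2 ≤ ε * x

lemma negligible_iUnion {ι : Type*} [Fintype ι] (S : ι → Set ℕ) (h : ∀ i, Negligible (S i)) :
    Negligible (⋃ i, S i) := by
  classical
  intro K ε hε
  set m : ℕ := Fintype.card ι with hm
  have hpos : (0 : ℝ) < ε / ((m : ℝ) + 1) ^ 2 := by positivity
  have h1 : ∀ᶠ x : ℕ in atTop, ∀ i, ∀ T : Finset ℕ, (∀ a ∈ T, a ∈ S i ∧ a ≤ x) →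
    (∀ v, ((T ×ˢ T).filter (fun p => p.1 + p.2 = v)).card ≤ K) →
      (T.card : ℝ) ^ 2 ≤ ε / ((m : ℝ) + 1) ^ 2 * x := by
    rw [eventually_all]
    intro i
    exact h i K _ hpos
  filter_upwards [h1] with x hx T hT hK
  have h2 : ∀ i, ((T.filter (fun a => a ∈ S i)).card : ℝ) ^ 2 ≤ ε / ((m : ℝ) + 1) ^ 2 * x := by
    intro i
    apply hx i
    · intro a ha
      rw [Finset.mem_filter] at ha
      exact ⟨ha.2, (hT a ha.1).2⟩
    · intro v
      refine le_trans (Finset.card_le_card ?_) (hK v)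
      intro p hp
      simp only [Finset.mem_filter, Finset.mem_product] at hp ⊢
      exact ⟨⟨hp.1.1.1, hp.1.2.1⟩, hp.2⟩
  have h3 : T ⊆ (Finset.univ : Finset ι).biUnion (fun i => T.filter (fun a => a ∈ S i)) := by
    intro a ha
    obtain ⟨i, hi⟩ := Set.mem_iUnion.1 (hT a ha).1
    rw [Finset.mem_biUnion]
    exact ⟨i, Finset.mem_univ _, Finset.mem_filter.2 ⟨ha, hi⟩⟩
  have h4 : (T.card : ℝ) ≤ ∑ i : ι, ((T.filter (fun a => a ∈ S i)).card : ℝ) := by
    have := le_trans (Finset.card_le_card h3) Finset.card_biUnion_le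
    exact_mod_cast this
  have h5 : ∀ i, ((T.filter (fun a => a ∈ S i)).card : ℝ) ≤ Real.sqrt (ε * x) / ((m : ℝ) + 1) := by
    intro i
    rw [le_div_iff₀ (by positivity)]
    apply Real.le_sqrt_of_sq_le
    rw [mul_pow]
    have := h2 i
    rw [div_mul_eq_mul_div, le_div_iff₀ (by positivity)] at this
    exact this
  have h6 : (T.card : ℝ) ≤ Real.sqrt (ε * x) := by
    refine le_trans h4 (le_trans (Finset.sum_le_sum (fun i _ => h5 i)) ?_)
    rw [Finset.sum_const, Finset.card_univ, ← hm, nsmul_eq_mul]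
    have h7 : (0 : ℝ) ≤ Real.sqrt (ε * x) := Real.sqrt_nonneg _
    rw [mul_div_assoc', div_le_iff₀ (by positivity)]
    nlinarith
  calc (T.card : ℝ) ^ 2 ≤ (Real.sqrt (ε * x)) ^ 2 := by gcongr
    _ = ε * x := Real.sq_sqrt (by positivity)

lemma Negligible.mono {S S' : Set ℕ} (h : Negligible S) (hS : S' ⊆ S) : Negligible S' := by
  intro K ε hε
  filter_upwards [h K ε hε] with x hx T hT hK
  exact hx T (fun a ha => ⟨hS (hT a ha).1, (hT a ha).2⟩) hK

/-- the finite set `A ∩ [0,x]` -/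
noncomputable def trunc (A : Set ℕ) (x : ℕ) : Finset ℕ :=
  @Finset.filter ℕ (fun a => a ∈ A) (Classical.decPred _) (Finset.range (x + 1))

lemma mem_trunc (A : Set ℕ) (x a : ℕ) : a ∈ trunc A x ↔ a ≤ x ∧ a ∈ A := by
  unfold trunc
  rw [@Finset.mem_filter _ _ (Classical.decPred _), Finset.mem_range, Nat.lt_succ_iff]

lemma rep_finite (A : Set ℕ) (n : ℕ) : {p : ℕ × ℕ | p.1 ∈ A ∧ p.2 ∈ A ∧ p.1 + p.2 = n}.Finite := by
  apply Set.Finite.subset (Finset.finite_toSet (Finset.range (n + 1) ×ˢ Finset.range (n + 1)))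
  intro p hp
  obtain ⟨_, _, h⟩ := hp
  simp only [Finset.coe_product, Finset.coe_range, Set.mem_prod, Set.mem_Iio]
  omega

lemma trunc_rep (A : Set ℕ) (x v : ℕ) :
    ((trunc A x ×ˢ trunc A x).filter (fun p => p.1 + p.2 = v)).card ≤ rep A v := by
  unfold rep
  rw [← Set.ncard_coe_finset]
  apply Set.ncard_le_ncard _ (rep_finite A v)
  intro p hp
  simp only [Finset.coe_filter, Finset.mem_product, mem_trunc, Set.mem_ofPred_eq] at hp
  exact ⟨hp.1.1.2, hp.1.2.2, hp.2⟩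

lemma ncard_trunc (A : Set ℕ) (x : ℕ) : (A ∩ Set.Iic x).ncard = (trunc A x).card := by
  rw [← Set.ncard_coe_finset]
  congr 1
  ext a
  simp only [Set.mem_inter_iff, Set.mem_Iic, Finset.mem_coe, mem_trunc]
  tauto

/-- a set inside a negligible set with bounded `r_A` has `o(√x)` elements up to `x` -/
lemma negligible_count {A : Set ℕ} (h : Negligible A) (hr : ∃ r, ∀ n, rep A n ≤ r) (ε : ℝ)
    (hε : 0 < ε) : ∀ᶠ x : ℕ in atTop, (((A ∩ Set.Iic x).ncard : ℝ)) ^ 2 ≤ ε * x := by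
  obtain ⟨r, hr⟩ := hr
  filter_upwards [h r ε hε] with x hx
  rw [ncard_trunc]
  apply hx
  · intro a ha
    rw [mem_trunc] at ha
    exact ⟨ha.2, ha.1⟩
  · intro v
    exact le_trans (trunc_rep A x v) (hr v)

/-- `|A ∩ [0,x]| / √x → 0` -/
lemma negligible_tendsto {A : Set ℕ} (h : Negligible A) (hr : ∃ r, ∀ n, rep A n ≤ r) :
    Tendsto (fun x : ℕ => ((A ∩ Set.Iic x).ncard : ℝ) / Real.sqrt x) atTop (𝓝 0) := by
  rw [Metric.tendsto_atTop]
  intro ε hε
  have h1 := negligible_count h hr ((ε / 2) ^ 2) (by positivity)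
  rw [eventually_atTop] at h1
  obtain ⟨N, hN⟩ := h1
  refine ⟨N + 1, fun x hx => ?_⟩
  have h2 := hN x (by omega)
  have hx0 : (0 : ℝ) < x := by
    have : 0 < x := by omega
    exact_mod_cast this
  have hs : 0 < Real.sqrt x := Real.sqrt_pos.2 hx0
  rw [Real.dist_eq, sub_zero, abs_of_nonneg (by positivity), div_lt_iff₀ hs]
  have h3 : ((A ∩ Set.Iic x).ncard : ℝ) ≤ (ε / 2) * Real.sqrt x := by
    apply le_of_sq_le_sq _ (by positivity)
    rw [mul_pow, Real.sq_sqrt hx0.le]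
    exact h2
  have : (ε / 2) * Real.sqrt x < ε * Real.sqrt x := by
    apply mul_lt_mul_of_pos_right _ hs
    linarith
  linarith

/-- `r_A(n) = 0` for infinitely many `n` -/
lemma negligible_Q1 {A : Set ℕ} (h : Negligible A) (hr : ∃ r, ∀ n, rep A n ≤ r) :
    ∃ᶠ n in atTop, rep A n = 0 := by
  intro hcon
  have h1 := negligible_count h hr (1 / 4) (by norm_num)
  rw [eventually_atTop] at h1 hcon
  obtain ⟨N, hN⟩ := h1
  obtain ⟨n₀, hn₀⟩ := hcon
  set x := N + 2 * n₀ + 1 with hx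
  have h2 := hN x (by omega)
  rw [ncard_trunc] at h2
  -- every value in [n₀, x] is a sum of two elements of trunc A x
  have h3 : (Finset.Icc n₀ x) ⊆ ((trunc A x) ×ˢ (trunc A x)).image (fun p => p.1 + p.2) := by
    intro v hv
    rw [Finset.mem_Icc] at hv
    have h4 := hn₀ v hv.1
    have h5 : {p : ℕ × ℕ | p.1 ∈ A ∧ p.2 ∈ A ∧ p.1 + p.2 = v}.Nonempty := by
      rw [← Set.ncard_pos (rep_finite A v)]
      exact Nat.pos_of_ne_zero h4
    obtain ⟨p, hp1, hp2, hp3⟩ := h5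
    rw [Finset.mem_image]
    refine ⟨p, ?_, hp3⟩
    rw [Finset.mem_product, mem_trunc, mem_trunc]
    refine ⟨⟨?_, hp1⟩, ?_, hp2⟩ <;> omega
  have h4 := le_trans (Finset.card_le_card h3) Finset.card_image_le
  rw [Nat.card_Icc, Finset.card_product] at h4
  have h5 : ((x + 1 - n₀ : ℕ) : ℝ) ≤ ((trunc A x).card : ℝ) ^ 2 := by
    rw [sq]
    exact_mod_cast h4
  have h6 : ((x + 1 - n₀ : ℕ) : ℝ) = (x : ℝ) + 1 - n₀ := by
    rw [Nat.cast_sub (by omega)]
    push_cast
    ring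
  rw [h6] at h5
  have h7 : (x : ℝ) = N + 2 * n₀ + 1 := by rw [hx]; push_cast; ring
  have h8 : (0 : ℝ) ≤ N := by positivity
  have h9 : (0 : ℝ) ≤ n₀ := by positivity
  rw [h7] at h5 h2
  linarith

/-- `a_n / n² → ∞`, where `a_1 < a_2 < ...` are the elements of `A` -/
lemma negligible_Q2 {A : Set ℕ} (h : Negligible A) (hr : ∃ r, ∀ n, rep A n ≤ r)
    (hA : A.Infinite) (C : ℝ) :
    ∀ᶠ n : ℕ in atTop, C * (n : ℝ) ^ 2 < (Nat.nth (fun a => a ∈ A) (n - 1) : ℝ) := by
  classical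
  have hCpos : (0 : ℝ) < |C| + 1 := by positivity
  have h1 := negligible_count h hr (1 / (|C| + 1)) (by positivity)
  -- the sequence a_n tends to infinity
  have hmono : StrictMono (Nat.nth (fun a => a ∈ A)) := Nat.nth_strictMono hA
  have htend : Tendsto (fun n : ℕ => Nat.nth (fun a => a ∈ A) (n - 1)) atTop atTop :=
    hmono.tendsto_atTop.comp (tendsto_sub_atTop_nat 1)
  filter_upwards [htend.eventually h1, eventually_ge_atTop 1] with n hn hn1
  set a := Nat.nth (fun a => a ∈ A) (n - 1) with ha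
  rw [ncard_trunc] at hn
  have h2 : n ≤ (trunc A a).card := by
    have h3 : (Finset.range n).image (Nat.nth (fun a => a ∈ A)) ⊆ trunc A a := by
      intro b hb
      rw [Finset.mem_image] at hb
      obtain ⟨j, hj, rfl⟩ := hb
      rw [Finset.mem_range] at hj
      rw [mem_trunc]
      refine ⟨?_, Nat.nth_mem_of_infinite hA j⟩
      rw [ha]
      exact hmono.monotone (by omega)
    have h4 := Finset.card_le_card h3
    rw [Finset.card_image_of_injective _ hmono.injective, Finset.card_range] at h4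
    exact h4
  have h3 : (n : ℝ) ^ 2 ≤ 1 / (|C| + 1) * a := by
    refine le_trans ?_ hn
    have : (n : ℝ) ≤ ((trunc A a).card : ℝ) := by exact_mod_cast h2
    gcongr
  have h4 : (|C| + 1) * (n : ℝ) ^ 2 ≤ a := by
    have := mul_le_mul_of_nonneg_left h3 hCpos.le
    rw [← mul_assoc, mul_one_div_cancel hCpos.ne', one_mul] at this
    exact this
  have hn2 : (0 : ℝ) < (n : ℝ) ^ 2 := by
    have : (0 : ℝ) < n := by exact_mod_cast hn1
    positivity
  have h5 : C ≤ |C| := le_abs_self C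
  nlinarith

end Pool.Agent.H380R2
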