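import Mathlib
import Pool.Agent.H380R2.Energy
import Pool.Agent.H380R2.Assembly

set_option autoImplicit false

open Finset Filter Topology

namespace Pool.Agent.H380R2

/-- weighted Hardy-type summation along a divisibility chain -/
lemma chain_energy {ι : Type*} [DecidableEq ι] (I : Finset ι) (φ : ι → ℕ) (M : ℕ → ℕ)
    (hM0 : 0 < M 0) (hdvd : ∀ j, M j ∣ M (j + 1)) (hlt : ∀ j, M j < M (j + 1)) (k : ℕ) :
    ∑ j ∈ range (k + 1), (M j : ℝ) * (coll I φ (M j) : ℝ) ^ 2 +
      3 * ((M k : ℝ) * (coll I φ (M k) : ℝ) ^ 2) ≤ 12 * ((M k : ℝ) * enr I φ (M k)) := by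
  have hMpos : ∀ j, 0 < M j := by
    intro j
    induction j with
    | zero => exact hM0
    | succ j ih => exact lt_trans ih (hlt j)
  induction k with
  | zero =>
    have h := base_ineq I φ (M 0) hM0
    have hm : (0 : ℝ) < M 0 := by exact_mod_cast hM0
    have h1 : (M 0 : ℝ) * (coll I φ (M 0) : ℝ) ^ 2 ≤ (M 0 : ℝ) * enr I φ (M 0) := by
      have h2 : (M 0 : ℝ) * ((M 0 : ℝ) * (coll I φ (M 0) : ℝ) ^ 2) ≤
          (M 0 : ℝ) * ((M 0 : ℝ) * enr I φ (M 0)) := by
        calc (M 0 : ℝ) * ((M 0 : ℝ) * (coll I φ (M 0) : ℝ) ^ 2) =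
            ((M 0 : ℝ) * coll I φ (M 0)) ^ 2 := by ring
          _ ≤ _ := h
      exact le_of_mul_le_mul_left h2 hm
    have h0 : (0 : ℝ) ≤ (M 0 : ℝ) * enr I φ (M 0) := by positivity
    rw [Finset.sum_range_one]
    linarith
  | succ k ih =>
    rw [Finset.sum_range_succ]
    obtain ⟨t, ht⟩ := hdvd k
    have hMk := hMpos k
    have hMk1 := hMpos (k + 1)
    have ht2 : 2 ≤ t := by
      by_contra hcon
      have : t = 0 ∨ t = 1 := by omega
      have h3 := hlt k
      rcases this with h | h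
      · rw [h, mul_zero] at ht; omega
      · rw [h, mul_one] at ht; omega
    have htM : M (k + 1) = t * M k := by rw [ht, mul_comm]
    have hd := diff_ineq I φ t (M k) (by omega) hMk
    rw [← htM] at hd
    set m : ℝ := (M k : ℝ) with hm
    set m' : ℝ := (M (k + 1) : ℝ) with hm'
    set D : ℝ := (coll I φ (M k) : ℝ) with hD
    set D' : ℝ := (coll I φ (M (k + 1)) : ℝ) with hD'
    set E : ℝ := (enr I φ (M k) : ℝ) with hE
    set E' : ℝ := (enr I φ (M (k + 1)) : ℝ) with hE'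
    have hmpos : 0 < m := by rw [hm]; exact_mod_cast hMk
    have hm'pos : 0 < m' := by rw [hm']; exact_mod_cast hMk1
    have h2m : 2 * m ≤ m' := by
      rw [hm, hm', htM]
      push_cast
      have : (2 : ℝ) ≤ t := by exact_mod_cast ht2
      apply mul_le_mul_of_nonneg_right this
      positivity
    -- v := m' D' - m D,  v ^ 2 ≤ m' (m' E' - m E)
    have key : m' * (m' * D' ^ 2) ≤ m' * (3 / 4 * (m * D ^ 2) + 3 * (m' * E' - m * E)) := by
      have h1 : (m' * D') ^ 2 ≤ 3 / 2 * (m * D) ^ 2 + 3 * (m' * D' - m * D) ^ 2 := by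
        nlinarith [sq_nonneg (m * D - 2 * (m' * D' - m * D))]
      have h2 : 3 / 2 * (m * D) ^ 2 ≤ m' * (3 / 4 * (m * D ^ 2)) := by
        have h3 : 0 ≤ m * D ^ 2 := by positivity
        nlinarith
      calc m' * (m' * D' ^ 2) = (m' * D') ^ 2 := by ring
        _ ≤ 3 / 2 * (m * D) ^ 2 + 3 * (m' * D' - m * D) ^ 2 := h1
        _ ≤ m' * (3 / 4 * (m * D ^ 2)) + 3 * (m' * (m' * E' - m * E)) := by linarith
        _ = _ := by ring
    have key2 : m' * D' ^ 2 ≤ 3 / 4 * (m * D ^ 2) + 3 * (m' * E' - m * E) :=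
      le_of_mul_le_mul_left key hm'pos
    linarith

/-- finite form: a set with representation numbers at most `K` cannot occupy few residue
classes along a divisibility chain -/
lemma chain_bound (T : Finset ℕ) (X K : ℕ) (M : ℕ → ℕ)
    (hM0 : 0 < M 0) (hdvd : ∀ j, M j ∣ M (j + 1)) (hlt : ∀ j, M j < M (j + 1)) (k : ℕ)
    (hk : M k ≤ X) (hTX : ∀ a ∈ T, a ≤ X)
    (hK : ∀ v, ((T ×ˢ T).filter (fun p => p.1 + p.2 = v)).card ≤ K)
    (ρ : ℕ → ℕ) (hρ : ∀ j, (T.image (fun a => a % M j)).card ≤ ρ j) :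
    (T.card : ℝ) ^ 2 * ∑ j ∈ range (k + 1), (M j : ℝ) / (ρ j : ℝ) ^ 2 ≤ 36 * K * X := by
  rcases Finset.eq_empty_or_nonempty T with rfl | hne
  · simp only [Finset.card_empty, Nat.cast_zero, ne_eq, OfNat.ofNat_ne_zero, not_false_eq_true,
      zero_pow, zero_mul]
    positivity
  have hn : (0 : ℝ) < (T.card : ℝ) := by exact_mod_cast hne.card_pos
  have hMpos : ∀ j, 0 < M j := by
    intro j
    induction j with
    | zero => exact hM0
    | succ j ih => exact lt_trans ih (hlt j)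
  have hρpos : ∀ j, (0 : ℝ) < ρ j := by
    intro j
    have : 0 < (T.image (fun a => a % M j)).card := (hne.image _).card_pos
    have := lt_of_lt_of_le this (hρ j)
    exact_mod_cast this
  have h1 := chain_energy T id M hM0 hdvd hlt k
  have h2 : ∀ j, (T.card : ℝ) ^ 4 * ((M j : ℝ) / (ρ j : ℝ) ^ 2) ≤
      (M j : ℝ) * (coll T id (M j) : ℝ) ^ 2 := by
    intro j
    have h3 := coll_ge T id (M j)
    have h4 : (T.card : ℝ) ^ 2 ≤ (ρ j : ℝ) * coll T id (M j) := by
      refine le_trans h3 ?_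
      apply mul_le_mul_of_nonneg_right _ (by positivity)
      exact_mod_cast hρ j
    have h5 : (T.card : ℝ) ^ 4 ≤ (ρ j : ℝ) ^ 2 * (coll T id (M j) : ℝ) ^ 2 := by
      calc (T.card : ℝ) ^ 4 = ((T.card : ℝ) ^ 2) ^ 2 := by ring
        _ ≤ ((ρ j : ℝ) * coll T id (M j)) ^ 2 := by
          apply pow_le_pow_left₀ (by positivity) h4
        _ = _ := by ring
    rw [← mul_div_assoc, div_le_iff₀ (by have := hρpos j; positivity)]
    have h6 : (0 : ℝ) ≤ M j := by positivity
    nlinarith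
  have h3 : (T.card : ℝ) ^ 4 * ∑ j ∈ range (k + 1), (M j : ℝ) / (ρ j : ℝ) ^ 2 ≤
      12 * ((M k : ℝ) * enr T id (M k)) := by
    rw [Finset.mul_sum]
    refine le_trans (Finset.sum_le_sum (fun j _ => h2 j)) ?_
    have : (0 : ℝ) ≤ 3 * ((M k : ℝ) * (coll T id (M k) : ℝ) ^ 2) := by positivity
    linarith
  have h4 := enr_le T X K (M k) hTX hK
  have h5 : (M k : ℝ) * enr T id (M k) ≤ 3 * K * X * (T.card : ℝ) ^ 2 := by
    have h6 : M k * enr T id (M k) ≤ 3 * K * X * T.card ^ 2 := by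
      have h7 : M k * (2 * X / M k + 1) ≤ 3 * X := by
        rw [mul_add, mul_one]
        have := Nat.mul_div_le (2 * X) (M k)
        omega
      calc M k * enr T id (M k) ≤ M k * (T.card ^ 2 * (K * (2 * X / M k + 1))) :=
            Nat.mul_le_mul_left _ h4
        _ = T.card ^ 2 * K * (M k * (2 * X / M k + 1)) := by ring
        _ ≤ T.card ^ 2 * K * (3 * X) := Nat.mul_le_mul_left _ h7
        _ = _ := by ring
    exact_mod_cast h6
  have h6 : (T.card : ℝ) ^ 2 * ((T.card : ℝ) ^ 2 * ∑ j ∈ range (k + 1), (M j : ℝ) / (ρ j : ℝ) ^ 2) ≤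
      (T.card : ℝ) ^ 2 * (36 * K * X) := by
    calc (T.card : ℝ) ^ 2 * ((T.card : ℝ) ^ 2 * ∑ j ∈ range (k + 1), (M j : ℝ) / (ρ j : ℝ) ^ 2) =
        (T.card : ℝ) ^ 4 * ∑ j ∈ range (k + 1), (M j : ℝ) / (ρ j : ℝ) ^ 2 := by ring
      _ ≤ 12 * ((M k : ℝ) * enr T id (M k)) := h3
      _ ≤ 12 * (3 * K * X * (T.card : ℝ) ^ 2) := by linarith
      _ = _ := by ring
  exact le_of_mul_le_mul_left h6 (by positivity)

/-- number of residue classes modulo `m` met by `S` -/
noncomputable def numClasses (S : Set ℕ) (m : ℕ) : ℕ := ((fun a => a % m) '' S).ncard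

/-- `S` occupies few residue classes along a divisibility chain `M_0 ∣ M_1 ∣ ...` -/
def ThinAlongChain (S : Set ℕ) : Prop :=
  ∃ M : ℕ → ℕ, 0 < M 0 ∧ (∀ j, M j ∣ M (j + 1) ∧ M j < M (j + 1)) ∧
    ¬ Summable (fun j => (M j : ℝ) / (numClasses S (M j) : ℝ) ^ 2)

lemma image_le_numClasses (S : Set ℕ) (T : Finset ℕ) (hT : ∀ a ∈ T, a ∈ S) (m : ℕ) (hm : 0 < m) :
    (T.image (fun a => a % m)).card ≤ numClasses S m := by
  unfold numClasses
  rw [← Set.ncard_coe_finset]
  apply Set.ncard_le_ncard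
  · intro r hr
    rw [Finset.mem_coe, Finset.mem_image] at hr
    obtain ⟨a, ha, rfl⟩ := hr
    exact ⟨a, hT a ha, rfl⟩
  · apply Set.Finite.subset (Set.finite_Iio m)
    rintro r ⟨a, _, rfl⟩
    exact Nat.mod_lt _ hm

lemma ThinAlongChain.negligible {S : Set ℕ} (h : ThinAlongChain S) : Negligible S := by
  obtain ⟨M, hM0, hM, hns⟩ := h
  intro K ε hε
  have hMpos : ∀ j, 0 < M j := by
    intro j
    induction j with
    | zero => exact hM0
    | succ j ih => exact lt_trans ih (hM j).2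
  -- some partial sum is large
  obtain ⟨k, hk⟩ : ∃ k, 36 * K / ε <
      ∑ j ∈ range (k + 1), (M j : ℝ) / (numClasses S (M j) : ℝ) ^ 2 := by
    by_contra hcon
    push Not at hcon
    apply hns
    apply summable_of_sum_range_le (c := 36 * K / ε)
    · intro j
      positivity
    · intro n
      refine le_trans ?_ (hcon n)
      rw [Finset.sum_range_succ]
      have : (0 : ℝ) ≤ (M n : ℝ) / (numClasses S (M n) : ℝ) ^ 2 := by positivity
      linarith
  filter_upwards [eventually_ge_atTop (M k)] with x hx T hT hK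
  have h1 := chain_bound T x K M hM0 (fun j => (hM j).1) (fun j => (hM j).2) k hx
    (fun a ha => (hT a ha).2) hK (fun j => numClasses S (M j))
    (fun j => image_le_numClasses S T (fun a ha => (hT a ha).1) (M j) (hMpos j))
  set σ : ℝ := ∑ j ∈ range (k + 1), (M j : ℝ) / (numClasses S (M j) : ℝ) ^ 2 with hσ
  have h0 : (0 : ℝ) ≤ 36 * K / ε := by positivity
  have hσpos : 0 < σ := lt_of_le_of_lt h0 hk
  have h2 : 36 * (K : ℝ) ≤ ε * σ := by
    rw [div_lt_iff₀ hε] at hk
    linarith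
  have h3 : (T.card : ℝ) ^ 2 * σ ≤ (ε * x) * σ := by
    refine le_trans h1 ?_
    calc 36 * (K : ℝ) * x ≤ (ε * σ) * x := by
          apply mul_le_mul_of_nonneg_right h2 (by positivity)
      _ = _ := by ring
  exact le_of_mul_le_mul_right h3 hσpos

end Pool.Agent.H380R2
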