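import Mathlib

set_option autoImplicit false

namespace Pool.Agent.H380R2.LC

section core

variable {A Q : ℕ → ℤ} (hA : ∀ k, 1 ≤ A k) (hQ0 : Q 0 = 0) (hQ1 : Q 1 = 1)
  (hQ : ∀ k, Q (k + 2) = A k * Q (k + 1) + Q k)

include hA hQ0 hQ1 hQ

lemma Q_mono1 (k : ℕ) : 0 ≤ Q k ∧ Q k ≤ Q (k + 1) := by
  induction k with
  | zero => simp [hQ0, hQ1]
  | succ k ih =>
    obtain ⟨h1, h2⟩ := ih
    have h3 := hA k
    refine ⟨by linarith, ?_⟩
    rw [show k + 1 + 1 = k + 2 from rfl, hQ k]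
    nlinarith

lemma Q_le {i j : ℕ} (hij : i ≤ j) : Q i ≤ Q j :=
  monotone_nat_of_le_succ (fun k => (Q_mono1 hA hQ0 hQ1 hQ k).2) hij

lemma Q_grow (k t : ℕ) : 2 ^ t * Q k ≤ Q (k + 2 * t) := by
  induction t with
  | zero => simp
  | succ t ih =>
    have h1 := Q_mono1 hA hQ0 hQ1 hQ (k + 2 * t)
    have h2 := hQ (k + 2 * t)
    have h3 := hA (k + 2 * t)
    rw [show k + 2 * (t + 1) = k + 2 * t + 2 by ring, h2, pow_succ]
    have h4 : Q (k + 2 * t + 1) ≤ A (k + 2 * t) * Q (k + 2 * t + 1) := by nlinarith [h1.1, h1.2]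
    linarith [h1.1, h1.2]

/-- growth over a period is comparable before and after -/
lemma Q_period (r c d : ℕ) (hper : ∀ k, c ≤ k → k < d → A (k + r) = A k) (M : ℤ)
    (h0 : Q (c + r) ≤ M) (h1 : Q (c + 1 + r) ≤ M) (j : ℕ) (hj : c + j ≤ d) :
    Q (c + j + r) * Q c ≤ M * Q (c + j) ∧ Q (c + j + 1 + r) * Q c ≤ M * Q (c + j + 1) := by
  have hM : 0 ≤ M := le_trans (Q_mono1 hA hQ0 hQ1 hQ _).1 h0
  induction j with
  | zero =>
    have h2 := Q_mono1 hA hQ0 hQ1 hQ c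
    constructor
    · exact mul_le_mul_of_nonneg_right h0 h2.1
    · refine le_trans (mul_le_mul_of_nonneg_right h1 h2.1) ?_
      exact mul_le_mul_of_nonneg_left h2.2 hM
  | succ j ih =>
    obtain ⟨ih1, ih2⟩ := ih (by omega)
    refine ⟨by convert ih2 using 2 <;> ring_nf, ?_⟩
    have h3 := hQ (c + j + r)
    have h4 := hQ (c + j)
    have h5 := hper (c + j) (by omega) (by omega)
    have h6 := hA (c + j)
    rw [show c + (j + 1) + 1 + r = c + j + r + 2 by ring,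
      show c + (j + 1) + 1 = c + j + 2 by ring, h3, h4, h5]
    rw [show c + j + 1 + r = c + j + r + 1 by ring] at ih2
    nlinarith [ih1, mul_le_mul_of_nonneg_left ih2 (by linarith : (0 : ℤ) ≤ A (c + j))]

end core

/-- The main estimate. -/
theorem core {A Q : ℕ → ℤ} (hA : ∀ k, 1 ≤ A k) (hQ0 : Q 0 = 0) (hQ1 : Q 1 = 1)
    (hQ : ∀ k, Q (k + 2) = A k * Q (k + 1) + Q k)
    (Th : ℕ → ℝ) (hTh : ∀ k, Th (k + 2) = A k * Th (k + 1) + Th k)
    (hW : ∀ k, |(Q (k + 1) : ℝ) * Th k - Q k * Th (k + 1)| = 1)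
    (hle : ∀ k, (Q (k + 1) : ℝ) * |Th k| ≤ 1) (hmono : ∀ k, |Th (k + 1)| ≤ |Th k|)
    (xi : ℕ → ℝ) (B : ℝ) (hB : ∀ k, |xi k| ≤ B) (z : ℕ → ℤ)
    (hxi : ∀ k, xi (k + 2) = A k * xi (k + 1) + xi k + z k)
    (r u t : ℕ) (s : ℤ) (hs : |s| = 1)
    (hper : ∀ k, u ≤ k → k < u + 2 * r + (4 * t + 2) → A (k + r) = A k ∧ z (k + r) = s * z k) :
    2 ^ t * ((Q (u + r + 2 * t + 2 + r) : ℝ) * |Th (u + r + 2 * t + 2)| *
      |xi (u + r + 2 * t + 2 + r) - s * xi (u + r + 2 * t + 2)|) ≤ 8 * B := by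
  have hB0 : 0 ≤ B := le_trans (abs_nonneg _) (hB 0)
  set m : ℕ := u + r + 2 * t + 1 with hm
  set w : ℕ := u + 2 * r + (4 * t + 2) with hw
  rw [show u + r + 2 * t + 2 = m + 1 by omega]
  set η : ℕ → ℝ := fun k => xi (k + r) - s * xi k with hη
  have hsR : |(s : ℝ)| = 1 := by exact_mod_cast hs
  have hηB : ∀ k, |η k| ≤ 2 * B := by
    intro k
    calc |η k| ≤ |xi (k + r)| + |(s : ℝ) * xi k| := abs_sub _ _
      _ = |xi (k + r)| + |xi k| := by rw [abs_mul, hsR, one_mul]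
      _ ≤ 2 * B := by linarith [hB (k + r), hB k]
  have hηrec : ∀ k, u ≤ k → k < w → η (k + 2) = A k * η (k + 1) + η k := by
    intro k h1 h2
    obtain ⟨h3, h4⟩ := hper k h1 h2
    have h5 := hxi (k + r)
    have h6 := hxi k
    simp only [hη]
    rw [show k + 2 + r = k + r + 2 by ring, show k + 1 + r = k + r + 1 by ring, h5, h6, h3, h4]
    push_cast
    ring
  set D : ℕ → ℝ := fun k => η (k + 1) * Q k - η k * Q (k + 1) with hD
  set E : ℕ → ℝ := fun k => η (k + 1) * Th k - η k * Th (k + 1) with hE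
  have hDst : ∀ j, u + j ≤ w → |D (u + j)| = |D u| := by
    intro j
    induction j with
    | zero => intro _; rfl
    | succ j ih =>
      intro hj
      rw [← ih (by omega), ← abs_neg (D (u + j))]
      congr 1
      simp only [hD]
      have h1 := hηrec (u + j) (by omega) (by omega)
      have h2 : (Q (u + j + 2) : ℝ) = A (u + j) * Q (u + j + 1) + Q (u + j) := by
        exact_mod_cast hQ (u + j)
      rw [show u + (j + 1) + 1 = u + j + 2 by ring, show u + (j + 1) = u + j + 1 by ring, h1, h2]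
      ring
  have hEst : ∀ j, u + j ≤ w → |E (u + j)| = |E u| := by
    intro j
    induction j with
    | zero => intro _; rfl
    | succ j ih =>
      intro hj
      rw [← ih (by omega), ← abs_neg (E (u + j))]
      congr 1
      simp only [hE]
      have h1 := hηrec (u + j) (by omega) (by omega)
      have h2 := hTh (u + j)
      rw [show u + (j + 1) + 1 = u + j + 2 by ring, show u + (j + 1) = u + j + 1 by ring, h1, h2]
      ring
  have hDm : |D m| = |D u| := by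
    have := hDst (m - u) (by omega)
    rwa [show u + (m - u) = m by omega] at this
  have hEm : |E m| = |E w| := by
    have h1 := hEst (m - u) (by omega)
    have h2 := hEst (w - u) (by omega)
    rw [show u + (m - u) = m by omega] at h1
    rw [show u + (w - u) = w by omega] at h2
    rw [h1, h2]
  have hQR : ∀ k, (0 : ℝ) ≤ Q k := fun k => by exact_mod_cast (Q_mono1 hA hQ0 hQ1 hQ k).1
  have hQR1 : ∀ i j, i ≤ j → (Q i : ℝ) ≤ Q j := fun i j h => by
    exact_mod_cast Q_le hA hQ0 hQ1 hQ h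
  have hDu : |D u| ≤ 4 * B * Q (u + 1) := by
    calc |D u| ≤ |η (u + 1) * Q u| + |η u * Q (u + 1)| := abs_sub _ _
      _ = |η (u + 1)| * Q u + |η u| * Q (u + 1) := by
          rw [abs_mul, abs_mul, abs_of_nonneg (hQR u), abs_of_nonneg (hQR (u + 1))]
      _ ≤ (2 * B) * Q u + (2 * B) * Q (u + 1) :=
          add_le_add (mul_le_mul_of_nonneg_right (hηB _) (hQR _))
            (mul_le_mul_of_nonneg_right (hηB _) (hQR _))
      _ ≤ (2 * B) * Q (u + 1) + (2 * B) * Q (u + 1) := by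
          have := mul_le_mul_of_nonneg_left (hQR1 u (u + 1) (by omega)) (by linarith : 0 ≤ 2 * B)
          linarith
      _ = 4 * B * Q (u + 1) := by ring
  have hEw : |E w| ≤ 4 * B * |Th w| := by
    calc |E w| ≤ |η (w + 1) * Th w| + |η w * Th (w + 1)| := abs_sub _ _
      _ = |η (w + 1)| * |Th w| + |η w| * |Th (w + 1)| := by rw [abs_mul, abs_mul]
      _ ≤ (2 * B) * |Th w| + (2 * B) * |Th (w + 1)| :=
          add_le_add (mul_le_mul_of_nonneg_right (hηB _) (abs_nonneg _))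
            (mul_le_mul_of_nonneg_right (hηB _) (abs_nonneg _))
      _ ≤ (2 * B) * |Th w| + (2 * B) * |Th w| := by
          have := mul_le_mul_of_nonneg_left (hmono w) (by linarith : 0 ≤ 2 * B)
          linarith
      _ = 4 * B * |Th w| := by ring
  have hη1 : |η (m + 1)| ≤ 4 * B * |Th w| * Q (m + 1) + 4 * B * Q (u + 1) * |Th (m + 1)| := by
    have h1 : η (m + 1) * ((Q (m + 1) : ℝ) * Th m - Q m * Th (m + 1)) =
        E m * Q (m + 1) - D m * Th (m + 1) := by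
      simp only [hE, hD]
      ring
    calc |η (m + 1)| = |η (m + 1) * ((Q (m + 1) : ℝ) * Th m - Q m * Th (m + 1))| := by
          rw [abs_mul, hW m, mul_one]
      _ = |E m * Q (m + 1) - D m * Th (m + 1)| := by rw [h1]
      _ ≤ |E m * Q (m + 1)| + |D m * Th (m + 1)| := abs_sub _ _
      _ = |E w| * Q (m + 1) + |D u| * |Th (m + 1)| := by
          rw [abs_mul, abs_mul, hEm, hDm, abs_of_nonneg (hQR (m + 1))]
      _ ≤ 4 * B * |Th w| * Q (m + 1) + 4 * B * Q (u + 1) * |Th (m + 1)| :=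
          add_le_add (mul_le_mul_of_nonneg_right hEw (hQR _))
            (mul_le_mul_of_nonneg_right hDu (abs_nonneg _))
  -- the two pieces
  have hT1 : (Q (m + 1) : ℝ) * |Th (m + 1)| ≤ 1 := by
    refine le_trans (mul_le_mul_of_nonneg_left (hmono m) (hQR _)) (hle m)
  have hP1 : 2 ^ t * ((Q (m + 1 + r) : ℝ) * |Th w|) ≤ 1 := by
    have h1 : (2 : ℝ) ^ t * Q (m + 1 + r) ≤ Q (m + 1 + r + 2 * t) := by
      exact_mod_cast Q_grow hA hQ0 hQ1 hQ (m + 1 + r) t
    have h2 : (Q (m + 1 + r + 2 * t) : ℝ) ≤ Q (w + 1) := hQR1 _ _ (by omega)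
    calc 2 ^ t * ((Q (m + 1 + r) : ℝ) * |Th w|) = (2 ^ t * Q (m + 1 + r)) * |Th w| := by ring
      _ ≤ Q (w + 1) * |Th w| := mul_le_mul_of_nonneg_right (h1.trans h2) (abs_nonneg _)
      _ ≤ 1 := hle w
  have hP2 : 2 ^ t * ((Q (m + 1 + r) : ℝ) * Q (u + 1) * |Th (m + 1)| ^ 2) ≤ 1 := by
    have h1 : (2 : ℝ) ^ t * Q (u + 1) ≤ Q (u + 2 * t + 1) := by
      have := Q_grow hA hQ0 hQ1 hQ (u + 1) t
      rw [show u + 1 + 2 * t = u + 2 * t + 1 by ring] at this
      exact_mod_cast this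
    have h2 : (Q (m + 1 + r) : ℝ) * Q (u + 2 * t + 1) ≤ (Q (m + 1) : ℝ) ^ 2 := by
      have h3 := Q_period hA hQ0 hQ1 hQ r (u + 2 * t + 1) w
        (fun k h1 h2 => (hper k (by omega) h2).1) (Q (m + 1))
        (Q_le hA hQ0 hQ1 hQ (by omega)) (Q_le hA hQ0 hQ1 hQ (by omega)) r (by omega)
      have h4 := h3.2
      rw [show u + 2 * t + 1 + r + 1 + r = m + 1 + r by omega,
        show u + 2 * t + 1 + r + 1 = m + 1 by omega, ← sq] at h4
      exact_mod_cast h4
    calc 2 ^ t * ((Q (m + 1 + r) : ℝ) * Q (u + 1) * |Th (m + 1)| ^ 2) =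
        (Q (m + 1 + r) : ℝ) * (2 ^ t * Q (u + 1)) * |Th (m + 1)| ^ 2 := by ring
      _ ≤ (Q (m + 1 + r) : ℝ) * Q (u + 2 * t + 1) * |Th (m + 1)| ^ 2 := by
          apply mul_le_mul_of_nonneg_right _ (by positivity)
          exact mul_le_mul_of_nonneg_left h1 (hQR _)
      _ ≤ (Q (m + 1) : ℝ) ^ 2 * |Th (m + 1)| ^ 2 :=
          mul_le_mul_of_nonneg_right h2 (by positivity)
      _ = ((Q (m + 1) : ℝ) * |Th (m + 1)|) ^ 2 := by ring
      _ ≤ 1 := by
          apply pow_le_one₀ _ hT1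
          exact mul_nonneg (hQR _) (abs_nonneg _)
  have hQm : (0 : ℝ) ≤ Q (m + 1 + r) * |Th (m + 1)| := mul_nonneg (hQR _) (abs_nonneg _)
  calc 2 ^ t * ((Q (m + 1 + r) : ℝ) * |Th (m + 1)| * |xi (m + 1 + r) - s * xi (m + 1)|)
      ≤ 2 ^ t * ((Q (m + 1 + r) : ℝ) * |Th (m + 1)| *
        (4 * B * |Th w| * Q (m + 1) + 4 * B * Q (u + 1) * |Th (m + 1)|)) := by
        apply mul_le_mul_of_nonneg_left _ (by positivity)
        exact mul_le_mul_of_nonneg_left hη1 hQm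
    _ = 4 * B * ((2 ^ t * ((Q (m + 1 + r) : ℝ) * |Th w|)) * (Q (m + 1) * |Th (m + 1)|)) +
        4 * B * (2 ^ t * ((Q (m + 1 + r) : ℝ) * Q (u + 1) * |Th (m + 1)| ^ 2)) := by ring
    _ ≤ 4 * B * (1 * 1) + 4 * B * 1 := by
        apply add_le_add
        · apply mul_le_mul_of_nonneg_left _ (by linarith)
          apply mul_le_mul hP1 hT1 _ zero_le_one
          exact mul_nonneg (hQR _) (abs_nonneg _)
        · exact mul_le_mul_of_nonneg_left hP2 (by linarith)
    _ = 8 * B := by ring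

end Pool.Agent.H380R2.LC
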