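import Mathlib
import Pool.Agent.H380R2.CodeCore

set_option autoImplicit false

namespace Pool.Agent.H380R2.LC

/-- complete quotients of `α`: `t 0 = α`, `t (k+1) = 1 / {t k}` -/
noncomputable def cq (α : ℝ) : ℕ → ℝ
  | 0 => α
  | k + 1 => (Int.fract (cq α k))⁻¹

/-- partial quotients `a k = ⌊t k⌋` of `α = [a 0; a 1, a 2, ...]` -/
noncomputable def pq (α : ℝ) (k : ℕ) : ℤ := ⌊cq α k⌋

/-- denominators of the convergents, shifted: `0, 1, a 1, a 2 * a 1 + 1, ...`, i.e.
`den α k = q_{k-1}` -/
noncomputable def den (α : ℝ) : ℕ → ℤ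
  | 0 => 0
  | 1 => 1
  | k + 2 => pq α (k + 1) * den α (k + 1) + den α k

/-- numerators of the convergents, shifted: `num α k = p_{k-1}` -/
noncomputable def num (α : ℝ) : ℕ → ℤ
  | 0 => 1
  | 1 => pq α 0
  | k + 2 => pq α (k + 1) * num α (k + 1) + num α k

/-- the code of the integer sequence `n`: `z k = a (k+1) * n (k+1) + n k - n (k+2)` -/
noncomputable def code (α : ℝ) (n : ℕ → ℤ) (k : ℕ) : ℤ :=
  pq α (k + 1) * n (k + 1) + n k - n (k + 2)

/-- `th α k = q_{k-1} α - p_{k-1}` -/
noncomputable def th (α : ℝ) (k : ℕ) : ℝ := den α k * α - num α k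

lemma cq_irrational {α : ℝ} (hα : Irrational α) (k : ℕ) : Irrational (cq α k) := by
  induction k with
  | zero => exact hα
  | succ k ih =>
    have h1 : Irrational (Int.fract (cq α k)) := by
      unfold Int.fract
      exact ih.sub_intCast _
    exact h1.inv

lemma fract_pos {α : ℝ} (hα : Irrational α) (k : ℕ) : 0 < Int.fract (cq α k) := by
  apply lt_of_le_of_ne (Int.fract_nonneg _)
  intro h
  have h1 : Irrational (Int.fract (cq α k)) := by
    unfold Int.fract
    exact (cq_irrational hα k).sub_intCast _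
  rw [← h] at h1
  exact not_irrational_zero h1

lemma pq_pos {α : ℝ} (hα : Irrational α) (k : ℕ) : 1 ≤ pq α (k + 1) := by
  unfold pq
  rw [Int.le_floor]
  have h1 := fract_pos hα k
  have h2 : Int.fract (cq α k) ≤ 1 := (Int.fract_lt_one _).le
  show ((1 : ℤ) : ℝ) ≤ (Int.fract (cq α k))⁻¹
  rw [Int.cast_one]
  exact (one_le_inv₀ h1).2 h2

lemma th_zero (α : ℝ) : th α 0 = -1 := by
  simp [th, den, num]

lemma th_rec (α : ℝ) (k : ℕ) : th α (k + 2) = pq α (k + 1) * th α (k + 1) + th α k := by
  simp only [th, den, num]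
  push_cast
  ring

lemma th_succ {α : ℝ} (hα : Irrational α) (k : ℕ) :
    th α (k + 1) = - (th α k * Int.fract (cq α k)) := by
  induction k with
  | zero =>
    rw [th_zero]
    simp only [th, den, num, pq, cq, Int.fract]
    push_cast
    ring
  | succ k ih =>
    have h1 := fract_pos hα k
    rw [th_rec α k]
    have h2 : th α k = - (th α (k + 1) * cq α (k + 1)) := by
      have h3 : cq α (k + 1) = (Int.fract (cq α k))⁻¹ := rfl
      rw [ih, h3]
      field_simp
    have h4 : Int.fract (cq α (k + 1)) = cq α (k + 1) - pq α (k + 1) := rfl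
    rw [h4, h2]
    ring

lemma th_mono {α : ℝ} (hα : Irrational α) (k : ℕ) : |th α (k + 1)| ≤ |th α k| := by
  rw [th_succ hα k, abs_neg, abs_mul, abs_of_nonneg (Int.fract_nonneg (cq α k))]
  exact mul_le_of_le_one_right (abs_nonneg _) (Int.fract_lt_one _).le

lemma det_eq (α : ℝ) (k : ℕ) :
    (den α (k + 1) : ℝ) * th α k - den α k * th α (k + 1) = (-1) ^ (k + 1) := by
  induction k with
  | zero =>
    simp [th, den, num]
  | succ k ih =>
    have h1 : (den α (k + 2) : ℝ) = pq α (k + 1) * den α (k + 1) + den α k := by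
      simp only [den]
      push_cast
      ring
    rw [show k + 1 + 1 = k + 2 from rfl, th_rec α k, h1, pow_succ, ← ih]
    ring

lemma det_abs (α : ℝ) (k : ℕ) :
    |(den α (k + 1) : ℝ) * th α k - den α k * th α (k + 1)| = 1 := by
  rw [det_eq, abs_pow, abs_neg, abs_one, one_pow]

lemma den_nonneg {α : ℝ} (hα : Irrational α) (k : ℕ) : 0 ≤ den α k :=
  (Q_mono1 (A := fun k => pq α (k + 1)) (Q := den α) (fun k => pq_pos hα k) rfl rfl
    (fun _ => rfl) k).1

lemma den_mul_th {α : ℝ} (hα : Irrational α) (k : ℕ) : (den α (k + 1) : ℝ) * |th α k| ≤ 1 := by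
  have h1 := det_abs α k
  rw [th_succ hα k] at h1
  have h2 : (den α (k + 1) : ℝ) * th α k - den α k * -(th α k * Int.fract (cq α k)) =
      th α k * (den α (k + 1) + den α k * Int.fract (cq α k)) := by ring
  rw [h2, abs_mul] at h1
  have h3 : (0 : ℝ) ≤ den α (k + 1) := by exact_mod_cast den_nonneg hα (k + 1)
  have h4 : (0 : ℝ) ≤ den α k := by exact_mod_cast den_nonneg hα k
  have h5 := Int.fract_nonneg (cq α k)
  have h6 : 0 ≤ (den α k : ℝ) * Int.fract (cq α k) := mul_nonneg h4 h5
  rw [abs_of_nonneg (by linarith : (0 : ℝ) ≤ den α (k + 1) + den α k * Int.fract (cq α k))] at h1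
  calc (den α (k + 1) : ℝ) * |th α k| ≤
      |th α k| * (den α (k + 1) + den α k * Int.fract (cq α k)) := by
        rw [mul_comm]
        apply mul_le_mul_of_nonneg_left _ (abs_nonneg _)
        linarith
    _ = 1 := h1

/-- `q ⟨qα⟩ ⟨qβ⟩` -/
noncomputable def prod (α β : ℝ) (q : ℕ) : ℝ :=
  (q : ℝ) * |(q : ℝ) * α - (round ((q : ℝ) * α) : ℝ)|
    * |(q : ℝ) * β - (round ((q : ℝ) * β) : ℝ)|

/-- one good denominator from one repetition -/
theorem one_denominator {α β : ℝ} (hα : Irrational α) (B : ℝ) (n : ℕ → ℤ)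
    (hB : ∀ k, |(den α k : ℝ) * β - n k| ≤ B) (r u t : ℕ) (hr : 1 ≤ r) (s : ℤ)
    (hs : s = 1 ∨ s = -1)
    (hper : ∀ k, u ≤ k → k < u + 2 * r + (4 * t + 2) →
      pq α (k + r + 1) = pq α (k + 1) ∧ code α n (k + r) = s * code α n k) :
    ∃ q : ℕ, 2 ^ t ≤ q ∧ 2 ^ t * prod α β q ≤ 32 * B := by
  have hA : ∀ k, 1 ≤ pq α (k + 1) := fun k => pq_pos hα k
  have hs1 : |s| = 1 := by rcases hs with rfl | rfl <;> simp
  have hxi : ∀ k, (den α (k + 2) : ℝ) * β - n (k + 2) =
      pq α (k + 1) * ((den α (k + 1) : ℝ) * β - n (k + 1)) + ((den α k : ℝ) * β - n k) +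
        code α n k := by
    intro k
    simp only [den, code]
    push_cast
    ring
  have hcore := core (A := fun k => pq α (k + 1)) (Q := den α) hA rfl rfl (fun _ => rfl)
    (th α) (th_rec α) (det_abs α) (den_mul_th hα) (th_mono hα)
    (fun k => (den α k : ℝ) * β - n k) B hB (code α n) hxi r u t s hs1
    (fun k h1 h2 => hper k h1 h2)
  set m : ℕ := u + r + 2 * t + 2 with hm
  have hmonoQ : ∀ {i j : ℕ}, i ≤ j → den α i ≤ den α j := fun h =>
    Q_le (A := fun k => pq α (k + 1)) (Q := den α) hA rfl rfl (fun _ => rfl) h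
  have hgrow : 2 ^ t * den α 1 ≤ den α (1 + 2 * t) :=
    Q_grow (A := fun k => pq α (k + 1)) (Q := den α) hA rfl rfl (fun _ => rfl) 1 t
  have hd1 : den α 1 = 1 := rfl
  rw [hd1, mul_one] at hgrow
  have hq0 : (2 : ℤ) ^ t ≤ den α (m + r) - s * den α m := by
    have h1 : den α (m + 1) ≤ den α (m + r) := hmonoQ (by omega)
    obtain ⟨m', hm'⟩ : ∃ m', m = m' + 1 := ⟨m - 1, by omega⟩
    have h2 : den α (m + 1) = pq α m * den α m + den α m' := by
      rw [hm']
      rfl
    have h3 : den α m ≤ pq α m * den α m := by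
      have h5 : 1 ≤ pq α m := by
        rw [hm']
        exact pq_pos hα _
      nlinarith [den_nonneg hα m]
    have h4 : den α (1 + 2 * t) ≤ den α m' := hmonoQ (by omega)
    have h5 : s * den α m ≤ den α m := by
      rcases hs with rfl | rfl
      · simp
      · nlinarith [den_nonneg hα m]
    linarith
  have hq1 : den α (m + r) - s * den α m ≤ 2 * den α (m + r) := by
    have h1 : den α m ≤ den α (m + r) := hmonoQ (by omega)
    rcases hs with rfl | rfl
    · nlinarith [den_nonneg hα m, den_nonneg hα (m + r)]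
    · linarith
  obtain ⟨q, hq⟩ : ∃ q : ℕ, (q : ℤ) = den α (m + r) - s * den α m :=
    Int.eq_ofNat_of_zero_le (le_trans (by positivity) hq0) |>.imp (fun q h => h.symm)
  refine ⟨q, ?_, ?_⟩
  · have : ((2 ^ t : ℕ) : ℤ) ≤ (q : ℤ) := by
      rw [hq]
      push_cast
      exact hq0
    exact_mod_cast this
  · have hqR : (q : ℝ) = den α (m + r) - s * den α m := by exact_mod_cast hq
    have hqle : (q : ℝ) ≤ 2 * den α (m + r) := by
      rw [hqR]
      exact_mod_cast hq1
    have hsR : |(s : ℝ)| = 1 := by exact_mod_cast hs1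
    have ha : |(q : ℝ) * α - (round ((q : ℝ) * α) : ℝ)| ≤ 2 * |th α m| := by
      refine le_trans (round_le ((q : ℝ) * α) (num α (m + r) - s * num α m)) ?_
      have h1 : (q : ℝ) * α - ((num α (m + r) - s * num α m : ℤ) : ℝ) =
          th α (m + r) - s * th α m := by
        rw [hqR]
        simp only [th]
        push_cast
        ring
      rw [h1]
      have h2 : |th α (m + r)| ≤ |th α m| := by
        have : Antitone (fun k => |th α k|) := antitone_nat_of_succ_le (fun k => th_mono hα k)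
        exact this (by omega)
      calc |th α (m + r) - s * th α m| ≤ |th α (m + r)| + |(s : ℝ) * th α m| := abs_sub _ _
        _ = |th α (m + r)| + |th α m| := by rw [abs_mul, hsR, one_mul]
        _ ≤ 2 * |th α m| := by linarith
    have hb : |(q : ℝ) * β - (round ((q : ℝ) * β) : ℝ)| ≤
        |((den α (m + r) : ℝ) * β - n (m + r)) - s * ((den α m : ℝ) * β - n m)| := by
      refine le_trans (round_le ((q : ℝ) * β) (n (m + r) - s * n m)) (le_of_eq ?_)
      congr 1
      rw [hqR]
      push_cast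
      ring
    have hd0 : (0 : ℝ) ≤ den α (m + r) := by exact_mod_cast den_nonneg hα (m + r)
    set X := |((den α (m + r) : ℝ) * β - n (m + r)) - s * ((den α m : ℝ) * β - n m)| with hX
    have hX0 : 0 ≤ X := abs_nonneg _
    have h1 : prod α β q ≤ (2 * den α (m + r)) * (2 * |th α m|) * X := by
      unfold prod
      apply mul_le_mul _ hb (abs_nonneg _) (by positivity)
      exact mul_le_mul hqle ha (abs_nonneg _) (by positivity)
    calc 2 ^ t * prod α β q ≤ 2 ^ t * ((2 * den α (m + r)) * (2 * |th α m|) * X) :=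
          mul_le_mul_of_nonneg_left h1 (by positivity)
      _ = 4 * (2 ^ t * ((den α (m + r) : ℝ) * |th α m| * X)) := by ring
      _ ≤ 4 * (8 * B) := by
          apply mul_le_mul_of_nonneg_left hcore (by norm_num)
      _ = 32 * B := by ring

end Pool.Agent.H380R2.LC
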