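import Mathlib
import Pool.Agent.H380R2.CodeCF

set_option autoImplicit false

open Finset

namespace Pool.Agent.H380R2.LC

/-- `∑_{j<k} x_j q_j` -/
noncomputable def SS (α : ℝ) (x : ℕ → ℤ) (k : ℕ) : ℤ := ∑ j ∈ range k, x j * den α j

/-- `∑_{j<k} x_j p_j` -/
noncomputable def RR (α : ℝ) (x : ℕ → ℤ) (k : ℕ) : ℤ := ∑ j ∈ range k, x j * num α j

/-- the integers attached to a digit expansion -/
noncomputable def nn (α : ℝ) (x : ℕ → ℤ) (k : ℕ) : ℤ := SS α x k * num α k - den α k * RR α x k

lemma detZ (α : ℝ) (k : ℕ) :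
    den α k * num α (k + 1) - den α (k + 1) * num α k = (-1) ^ (k + 1) := by
  induction k with
  | zero => simp [den, num]
  | succ k ih =>
    have h1 : den α (k + 2) = pq α (k + 1) * den α (k + 1) + den α k := rfl
    have h2 : num α (k + 2) = pq α (k + 1) * num α (k + 1) + num α k := rfl
    rw [show k + 1 + 1 = k + 2 from rfl, h1, h2, pow_succ, ← ih]
    ring

lemma code_nn (α : ℝ) (x : ℕ → ℤ) (k : ℕ) : code α (nn α x) k = (-1) ^ (k + 1) * x (k + 1) := by
  have h1 : den α (k + 2) = pq α (k + 1) * den α (k + 1) + den α k := rfl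
  have h2 : num α (k + 2) = pq α (k + 1) * num α (k + 1) + num α k := rfl
  have hS1 : SS α x (k + 1) = SS α x k + x k * den α k := Finset.sum_range_succ _ _
  have hS2 : SS α x (k + 2) = SS α x (k + 1) + x (k + 1) * den α (k + 1) :=
    Finset.sum_range_succ _ _
  have hR1 : RR α x (k + 1) = RR α x k + x k * num α k := Finset.sum_range_succ _ _
  have hR2 : RR α x (k + 2) = RR α x (k + 1) + x (k + 1) * num α (k + 1) :=
    Finset.sum_range_succ _ _
  unfold code nn
  rw [hS2, hR2, hS1, hR1, h1, h2, ← detZ α k]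
  ring

lemma sum_den_le {α : ℝ} (hα : Irrational α) (k : ℕ) :
    ∑ j ∈ range k, den α j ≤ den α (k + 1) := by
  induction k with
  | zero => simp [den]
  | succ k ih =>
    rw [Finset.sum_range_succ]
    have h1 : den α (k + 2) = pq α (k + 1) * den α (k + 1) + den α k := rfl
    have h2 := pq_pos hα k
    have h3 := den_nonneg hα (k + 1)
    rw [show k + 1 + 1 = k + 2 from rfl, h1]
    nlinarith

lemma th_step {α : ℝ} (hα : Irrational α) (k : ℕ) : |th α (k + 2)| ≤ |th α k| - |th α (k + 1)| := by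
  have h1 := th_succ hα k
  have h2 := th_succ hα (k + 1)
  have h3 := fract_pos hα k
  have h4 := th_rec α k
  -- `|th k| = a |th (k+1)| + |th (k+2)|`
  have hc : cq α (k + 1) = (Int.fract (cq α k))⁻¹ := rfl
  have h5 : |th α k| = |th α (k + 1)| * cq α (k + 1) := by
    rw [h1, hc, abs_neg, abs_mul, abs_of_pos h3]
    field_simp
  have h6 : |th α (k + 2)| = |th α (k + 1)| * Int.fract (cq α (k + 1)) := by
    rw [show k + 2 = k + 1 + 1 from rfl, h2, abs_neg, abs_mul,
      abs_of_nonneg (Int.fract_nonneg (cq α (k + 1)))]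
  have h7 : (1 : ℝ) ≤ (⌊cq α (k + 1)⌋ : ℝ) := by exact_mod_cast pq_pos hα k
  have h8 : Int.fract (cq α (k + 1)) = cq α (k + 1) - ⌊cq α (k + 1)⌋ := rfl
  rw [h5, h6, h8]
  nlinarith [abs_nonneg (th α (k + 1))]

lemma sum_th_le {α : ℝ} (hα : Irrational α) (k J : ℕ) :
    ∑ j ∈ range J, |th α (k + j)| ≤ 3 * |th α k| := by
  have h1 : ∀ J, ∑ j ∈ range J, |th α (k + j + 2)| ≤ |th α k| - |th α (k + J)| + 0 := by
    intro J
    induction J with
    | zero => simp
    | succ J ih =>
      rw [Finset.sum_range_succ]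
      have := th_step hα (k + J)
      rw [show k + (J + 1) = k + J + 1 by ring]
      linarith
  have h2 : ∑ j ∈ range J, |th α (k + j)| ≤ ∑ j ∈ range (J + 2), |th α (k + j)| :=
    Finset.sum_le_sum_of_subset_of_nonneg (Finset.range_mono (by omega))
      (fun _ _ _ => abs_nonneg _)
  refine le_trans h2 ?_
  rw [Finset.sum_range_succ', Finset.sum_range_succ']
  have h3 := h1 J
  have h4 := th_mono hα k
  have h5 := abs_nonneg (th α (k + J))
  have h6 : ∑ j ∈ range J, |th α (k + (j + 1 + 1))| = ∑ j ∈ range J, |th α (k + j + 2)| := by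
    apply Finset.sum_congr rfl
    intro j _
    rw [show k + (j + 1 + 1) = k + j + 2 by ring]
  rw [h6, show k + (0 + 1) = k + 1 by ring, show k + 0 = k by ring]
  linarith

lemma digit_bound {α β : ℝ} (hα : Irrational α) (x : ℕ → ℤ) (X : ℝ) (hX : ∀ k, |(x k : ℝ)| ≤ X)
    (hβ : HasSum (fun k => (x k : ℝ) * th α k) β) (k : ℕ) :
    |(den α k : ℝ) * β - nn α x k| ≤ 4 * X := by
  have hX0 : 0 ≤ X := le_trans (abs_nonneg _) (hX 0)
  have hd0 : (0 : ℝ) ≤ den α k := by exact_mod_cast den_nonneg hα k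
  set T : ℝ := β - ∑ j ∈ range k, (x j : ℝ) * th α j with hT
  have hTk : HasSum (fun j => (x (j + k) : ℝ) * th α (j + k)) T := by
    rw [hT]
    exact (hasSum_nat_add_iff' k).2 hβ
  have hTle : |T| ≤ 3 * X * |th α k| := by
    have h1 := hTk.tendsto_sum_nat
    have h2 : ∀ J, |∑ j ∈ range J, (x (j + k) : ℝ) * th α (j + k)| ≤ 3 * X * |th α k| := by
      intro J
      calc |∑ j ∈ range J, (x (j + k) : ℝ) * th α (j + k)| ≤
          ∑ j ∈ range J, |(x (j + k) : ℝ) * th α (j + k)| := Finset.abs_sum_le_sum_abs _ _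
        _ ≤ ∑ j ∈ range J, X * |th α (k + j)| := by
            apply Finset.sum_le_sum
            intro j _
            rw [abs_mul, add_comm j k]
            exact mul_le_mul_of_nonneg_right (hX _) (abs_nonneg _)
        _ = X * ∑ j ∈ range J, |th α (k + j)| := by rw [Finset.mul_sum]
        _ ≤ X * (3 * |th α k|) := mul_le_mul_of_nonneg_left (sum_th_le hα k J) hX0
        _ = 3 * X * |th α k| := by ring
    exact le_of_tendsto' h1.abs h2
  have hid : (den α k : ℝ) * β - nn α x k = (SS α x k : ℝ) * th α k + den α k * T := by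
    have h1 : ∑ j ∈ range k, (x j : ℝ) * th α j = (SS α x k : ℝ) * α - RR α x k := by
      unfold SS RR
      push_cast
      rw [Finset.sum_mul, ← Finset.sum_sub_distrib]
      apply Finset.sum_congr rfl
      intro j _
      simp only [th]
      ring
    have h2 : (th α k : ℝ) = den α k * α - num α k := rfl
    rw [hT, h1, h2]
    unfold nn
    push_cast
    ring
  have hS : |(SS α x k : ℝ)| ≤ X * den α (k + 1) := by
    unfold SS
    push_cast
    calc |∑ j ∈ range k, (x j : ℝ) * den α j| ≤ ∑ j ∈ range k, |(x j : ℝ) * den α j| :=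
          Finset.abs_sum_le_sum_abs _ _
      _ ≤ ∑ j ∈ range k, X * den α j := by
          apply Finset.sum_le_sum
          intro j _
          have hdj : (0 : ℝ) ≤ den α j := by exact_mod_cast den_nonneg hα j
          rw [abs_mul, abs_of_nonneg hdj]
          exact mul_le_mul_of_nonneg_right (hX _) hdj
      _ = X * ∑ j ∈ range k, (den α j : ℝ) := by rw [Finset.mul_sum]
      _ ≤ X * den α (k + 1) := by
          apply mul_le_mul_of_nonneg_left _ hX0
          exact_mod_cast sum_den_le hα k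
  have h5 := den_mul_th hα k
  have h6 : (den α k : ℝ) * |th α k| ≤ 1 := by
    refine le_trans (mul_le_mul_of_nonneg_right ?_ (abs_nonneg _)) h5
    have : den α k ≤ den α (k + 1) := (Q_mono1 (A := fun k => pq α (k + 1)) (Q := den α)
      (fun k => pq_pos hα k) rfl rfl (fun _ => rfl) k).2
    exact_mod_cast this
  rw [hid]
  calc |(SS α x k : ℝ) * th α k + den α k * T| ≤ |(SS α x k : ℝ) * th α k| + |(den α k : ℝ) * T| :=
        abs_add_le _ _
    _ = |(SS α x k : ℝ)| * |th α k| + den α k * |T| := by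
        rw [abs_mul, abs_mul, abs_of_nonneg hd0]
    _ ≤ (X * den α (k + 1)) * |th α k| + den α k * (3 * X * |th α k|) :=
        add_le_add (mul_le_mul_of_nonneg_right hS (abs_nonneg _))
          (mul_le_mul_of_nonneg_left hTle hd0)
    _ = X * (den α (k + 1) * |th α k|) + 3 * X * (den α k * |th α k|) := by ring
    _ ≤ X * 1 + 3 * X * 1 := by
        apply add_le_add
        · exact mul_le_mul_of_nonneg_left h5 hX0
        · exact mul_le_mul_of_nonneg_left h6 (by linarith)
    _ = 4 * X := by ring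

end Pool.Agent.H380R2.LC
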