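import Mathlib
import Pool.Agent.H380R2.Energy
import Pool.Agent.H380R2.Assembly
import Pool.Agent.H380R2.Chain

set_option autoImplicit false

open Finset Filter Topology

namespace Pool.Agent.H380R2

/-- the nonzero fractions with denominators in a finite set of pairwise coprime moduli
contribute to the fourth moment -/
lemma coprime_energy {ι : Type*} [DecidableEq ι] (I : Finset ι) (φ : ι → ℕ) (F : Finset ℕ)
    (hpos : ∀ m ∈ F, 0 < m) (hco : (F : Set ℕ).Pairwise Nat.Coprime) :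
    ∑ m ∈ F, ((m : ℝ) * coll I φ m - (I.card : ℝ) ^ 2) ^ 2 / m ≤
      ((∏ m ∈ F, m : ℕ) : ℝ) * enr I φ (∏ m ∈ F, m) := by
  classical
  set M : ℕ := ∏ m ∈ F, m with hM
  have hMpos : 0 < M := Finset.prod_pos hpos
  have hcof : ∀ m ∈ F, (M / m) * m = M := fun m hm =>
    Nat.div_mul_cancel (Finset.dvd_prod_of_mem _ hm)
  have hcofpos : ∀ m ∈ F, 0 < M / m := fun m hm =>
    Nat.div_pos (Nat.le_of_dvd hMpos (Finset.dvd_prod_of_mem _ hm)) (hpos m hm)
  set g : ℕ → ℝ := fun k => (Complex.normSq (expSum I φ M k)) ^ 2 with hg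
  have hgnn : ∀ k, 0 ≤ g k := fun k => by rw [hg]; positivity
  -- step 1: each modulus
  have hstep : ∀ m ∈ F, ((m : ℝ) * coll I φ m - (I.card : ℝ) ^ 2) ^ 2 / m ≤
      ∑ a ∈ (range m).filter (fun a => 0 < a), g ((M / m) * a) := by
    intro m hm
    have hmpos := hpos m hm
    have h0 : Complex.normSq (expSum I φ m 0) = (I.card : ℝ) ^ 2 := by
      have : expSum I φ m 0 = (I.card : ℂ) := by
        unfold expSum
        simp
      rw [this, Complex.normSq_natCast, sq]
    have hfr : ∀ h : ℕ → ℝ, ∑ a ∈ (range m).filter (fun a => 0 < a), h a =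
        ∑ a ∈ range m, h a - h 0 := by
      intro h
      rw [← Finset.sum_filter_add_sum_filter_not (range m) (fun a => 0 < a) h]
      have : (range m).filter (fun a => ¬ 0 < a) = {0} := by
        ext a
        simp only [Finset.mem_filter, Finset.mem_range, Finset.mem_singleton]
        omega
      rw [this, Finset.sum_singleton]
      ring
    have h1 : (m : ℝ) * coll I φ m - (I.card : ℝ) ^ 2 =
        ∑ a ∈ (range m).filter (fun a => 0 < a), Complex.normSq (expSum I φ m a) := by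
      rw [hfr (fun a => Complex.normSq (expSum I φ m a)), sum_normSq I φ m hmpos, h0]
    rw [h1, div_le_iff₀ (by exact_mod_cast hmpos)]
    refine le_trans (sq_sum_le_card_mul_sum_sq) ?_
    have h2 : ∀ a, g ((M / m) * a) = (Complex.normSq (expSum I φ m a)) ^ 2 := by
      intro a
      rw [hg]
      simp only
      have := expSum_mul I φ (M / m) m a (hcofpos m hm)
      rw [hcof m hm] at this
      rw [this]
    simp_rw [h2]
    rw [mul_comm]
    apply mul_le_mul_of_nonneg_left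
    · have : ((range m).filter (fun a => 0 < a)).card ≤ m := by
        refine le_trans (Finset.card_filter_le _ _) ?_
        simp
      exact_mod_cast this
    · apply Finset.sum_nonneg
      intro a _
      positivity
  refine le_trans (Finset.sum_le_sum hstep) ?_
  rw [← sum_normSq_sq I φ M hMpos]
  rw [Finset.sum_sigma']
  -- the map (m, a) ↦ (M / m) a is injective on the index set
  have hinj : Set.InjOn (fun x : (_ : ℕ) × ℕ => (M / x.1) * x.2)
      ((F.sigma (fun m => (range m).filter (fun a => 0 < a)) : Finset _) : Set _) := by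
    rintro ⟨m, a⟩ h1 ⟨m', a'⟩ h2 heq
    rw [Finset.mem_coe, Finset.mem_sigma, Finset.mem_filter, Finset.mem_range] at h1 h2
    simp only at h1 h2 heq
    obtain ⟨hm, ha1, ha2⟩ := h1
    obtain ⟨hm', ha1', ha2'⟩ := h2
    by_cases hmm : m = m'
    · subst hmm
      have := Nat.eq_of_mul_eq_mul_left (hcofpos m hm) heq
      rw [this]
    · exfalso
      have hcop : Nat.Coprime m m' := hco hm hm' hmm
      -- multiply by m * m'
      have h3 : a * m' = a' * m := by
        have h4 : M * (a * m') = M * (a' * m) := by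
          calc M * (a * m') = ((M / m) * m) * (a * m') := by rw [hcof m hm]
            _ = ((M / m) * a) * (m * m') := by ring
            _ = ((M / m') * a') * (m * m') := by rw [heq]
            _ = ((M / m') * m') * (a' * m) := by ring
            _ = M * (a' * m) := by rw [hcof m' hm']
        exact Nat.eq_of_mul_eq_mul_left hMpos h4
      have h5 : m ∣ a * m' := by
        rw [h3]
        exact Dvd.intro_left _ rfl
      have h6 : m ∣ a := hcop.dvd_of_dvd_mul_right h5
      have := Nat.le_of_dvd ha2 h6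
      omega
  have hsum : ∑ x ∈ F.sigma (fun m => (range m).filter (fun a => 0 < a)), g ((M / x.1) * x.2) =
      ∑ k ∈ (F.sigma (fun m => (range m).filter (fun a => 0 < a))).image
        (fun x : (_ : ℕ) × ℕ => (M / x.1) * x.2), g k := by
    rw [Finset.sum_image hinj]
  rw [hsum]
  apply Finset.sum_le_sum_of_subset_of_nonneg
  · intro k hk
    rw [Finset.mem_image] at hk
    obtain ⟨⟨m, a⟩, hx, rfl⟩ := hk
    rw [Finset.mem_sigma, Finset.mem_filter, Finset.mem_range] at hx
    simp only at hx ⊢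
    rw [Finset.mem_range]
    calc (M / m) * a < (M / m) * m := Nat.mul_lt_mul_of_pos_left hx.2.1 (hcofpos m hx.1)
      _ = M := hcof m hx.1
  · intro k _ _
    exact hgnn k

/-- finite form: a set with representation numbers at most `K` cannot miss many residue classes
modulo many pairwise coprime moduli -/
lemma sieve_bound (T : Finset ℕ) (X K : ℕ) (F : Finset ℕ)
    (hpos : ∀ m ∈ F, 0 < m) (hco : (F : Set ℕ).Pairwise Nat.Coprime)
    (hMX : ∏ m ∈ F, m ≤ X) (hTX : ∀ a ∈ T, a ≤ X)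
    (hK : ∀ v, ((T ×ˢ T).filter (fun p => p.1 + p.2 = v)).card ≤ K)
    (ρ : ℕ → ℕ) (hρ : ∀ m ∈ F, (T.image (fun a => a % m)).card ≤ ρ m) (hρm : ∀ m ∈ F, ρ m ≤ m) :
    (T.card : ℝ) ^ 2 * ∑ m ∈ F, ((m : ℝ) / (ρ m : ℝ) - 1) ^ 2 / m ≤ 3 * K * X := by
  rcases Finset.eq_empty_or_nonempty T with rfl | hne
  · simp only [Finset.card_empty, Nat.cast_zero, ne_eq, OfNat.ofNat_ne_zero, not_false_eq_true,
      zero_pow, zero_mul]
    positivity
  have hn : (0 : ℝ) < (T.card : ℝ) := by exact_mod_cast hne.card_pos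
  set M : ℕ := ∏ m ∈ F, m with hM
  have hMpos : 0 < M := Finset.prod_pos hpos
  have hρpos : ∀ m ∈ F, (0 : ℝ) < ρ m := by
    intro m hm
    have : 0 < (T.image (fun a => a % m)).card := (hne.image _).card_pos
    have := lt_of_lt_of_le this (hρ m hm)
    exact_mod_cast this
  have h1 := coprime_energy T id F hpos hco
  have h2 : ∀ m ∈ F, (T.card : ℝ) ^ 4 * (((m : ℝ) / (ρ m : ℝ) - 1) ^ 2 / m) ≤
      ((m : ℝ) * coll T id m - (T.card : ℝ) ^ 2) ^ 2 / m := by
    intro m hm
    have hmpos : (0 : ℝ) < m := by exact_mod_cast hpos m hm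
    have h3 := coll_ge T id m
    have h4 : (T.card : ℝ) ^ 2 ≤ (ρ m : ℝ) * coll T id m := by
      refine le_trans h3 ?_
      apply mul_le_mul_of_nonneg_right _ (by positivity)
      exact_mod_cast hρ m hm
    have h5 : (T.card : ℝ) ^ 2 * ((m : ℝ) / (ρ m : ℝ) - 1) ≤
        (m : ℝ) * coll T id m - (T.card : ℝ) ^ 2 := by
      have h6 : (T.card : ℝ) ^ 2 * ((m : ℝ) / (ρ m : ℝ)) ≤ (m : ℝ) * coll T id m := by
        rw [← mul_div_assoc, div_le_iff₀ (hρpos m hm)]
        nlinarith
      linarith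
    have h7 : 0 ≤ (T.card : ℝ) ^ 2 * ((m : ℝ) / (ρ m : ℝ) - 1) := by
      apply mul_nonneg (by positivity)
      rw [sub_nonneg, le_div_iff₀ (hρpos m hm), one_mul]
      exact_mod_cast hρm m hm
    rw [← mul_div_assoc]
    apply div_le_div_of_nonneg_right _ hmpos.le
    calc (T.card : ℝ) ^ 4 * ((m : ℝ) / (ρ m : ℝ) - 1) ^ 2 =
        ((T.card : ℝ) ^ 2 * ((m : ℝ) / (ρ m : ℝ) - 1)) ^ 2 := by ring
      _ ≤ _ := pow_le_pow_left₀ h7 h5 2
  have h3 : (T.card : ℝ) ^ 4 * ∑ m ∈ F, ((m : ℝ) / (ρ m : ℝ) - 1) ^ 2 / m ≤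
      (M : ℝ) * enr T id M := by
    rw [Finset.mul_sum]
    exact le_trans (Finset.sum_le_sum h2) h1
  have h4 := enr_le T X K M hTX hK
  have h5 : (M : ℝ) * enr T id M ≤ 3 * K * X * (T.card : ℝ) ^ 2 := by
    have h6 : M * enr T id M ≤ 3 * K * X * T.card ^ 2 := by
      have h7 : M * (2 * X / M + 1) ≤ 3 * X := by
        rw [mul_add, mul_one]
        have := Nat.mul_div_le (2 * X) M
        omega
      calc M * enr T id M ≤ M * (T.card ^ 2 * (K * (2 * X / M + 1))) :=
            Nat.mul_le_mul_left _ h4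
        _ = T.card ^ 2 * K * (M * (2 * X / M + 1)) := by ring
        _ ≤ T.card ^ 2 * K * (3 * X) := Nat.mul_le_mul_left _ h7
        _ = _ := by ring
    exact_mod_cast h6
  have h6 : (T.card : ℝ) ^ 2 * ((T.card : ℝ) ^ 2 * ∑ m ∈ F, ((m : ℝ) / (ρ m : ℝ) - 1) ^ 2 / m) ≤
      (T.card : ℝ) ^ 2 * (3 * K * X) := by
    calc (T.card : ℝ) ^ 2 * ((T.card : ℝ) ^ 2 * ∑ m ∈ F, ((m : ℝ) / (ρ m : ℝ) - 1) ^ 2 / m) =
        (T.card : ℝ) ^ 4 * ∑ m ∈ F, ((m : ℝ) / (ρ m : ℝ) - 1) ^ 2 / m := by ring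
      _ ≤ (M : ℝ) * enr T id M := h3
      _ ≤ 3 * K * X * (T.card : ℝ) ^ 2 := h5
      _ = _ := by ring
  exact le_of_mul_le_mul_left h6 (by positivity)

/-- `S` misses many residue classes modulo the members of a set of pairwise coprime moduli -/
def SieveThin (S : Set ℕ) : Prop :=
  ∃ P : Set ℕ, (∀ m ∈ P, 0 < m) ∧ P.Pairwise Nat.Coprime ∧
    ¬ Summable (fun m : P => (((m : ℕ) : ℝ) / (numClasses S m : ℝ) - 1) ^ 2 / ((m : ℕ) : ℝ))

lemma numClasses_le (S : Set ℕ) (m : ℕ) (hm : 0 < m) : numClasses S m ≤ m := by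
  unfold numClasses
  have hsub : ((fun a => a % m) '' S) ⊆ ((Finset.range m : Finset ℕ) : Set ℕ) := by
    rintro r ⟨a, _, rfl⟩
    rw [Finset.mem_coe, Finset.mem_range]
    exact Nat.mod_lt _ hm
  refine le_trans (Set.ncard_le_ncard hsub (Finset.finite_toSet _)) ?_
  rw [Set.ncard_coe_finset, Finset.card_range]

lemma SieveThin.negligible {S : Set ℕ} (h : SieveThin S) : Negligible S := by
  classical
  obtain ⟨P, hpos, hco, hns⟩ := h
  intro K ε hε
  set w : P → ℝ := fun m => (((m : ℕ) : ℝ) / (numClasses S m : ℝ) - 1) ^ 2 / ((m : ℕ) : ℝ) with hw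
  have hwnn : ∀ m, 0 ≤ w m := fun m => by rw [hw]; positivity
  obtain ⟨F, hF⟩ : ∃ F : Finset P, 3 * K / ε < ∑ m ∈ F, w m := by
    by_contra hcon
    push Not at hcon
    exact hns (summable_of_sum_le hwnn hcon)
  set G : Finset ℕ := F.image (fun m : P => (m : ℕ)) with hG
  have hGP : ∀ m ∈ G, m ∈ P := by
    intro m hm
    rw [hG, Finset.mem_image] at hm
    obtain ⟨m', _, rfl⟩ := hm
    exact m'.2
  have hsumG : ∑ m ∈ F, w m = ∑ m ∈ G, ((m : ℝ) / (numClasses S m : ℝ) - 1) ^ 2 / (m : ℝ) := by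
    rw [hG, Finset.sum_image]
    intro a _ b _ hab
    exact Subtype.ext hab
  rw [hsumG] at hF
  have hGpos : ∀ m ∈ G, 0 < m := fun m hm => hpos m (hGP m hm)
  filter_upwards [eventually_ge_atTop (∏ m ∈ G, m)] with x hx T hT hK
  have h1 := sieve_bound T x K G hGpos (fun a ha b hb hab => hco (hGP a ha) (hGP b hb) hab) hx
    (fun a ha => (hT a ha).2) hK (fun m => numClasses S m)
    (fun m hm => image_le_numClasses S T (fun a ha => (hT a ha).1) m (hGpos m hm))
    (fun m hm => numClasses_le S m (hGpos m hm))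
  set σ : ℝ := ∑ m ∈ G, ((m : ℝ) / (numClasses S m : ℝ) - 1) ^ 2 / (m : ℝ) with hσ
  have h0 : (0 : ℝ) ≤ 3 * K / ε := by positivity
  have hσpos : 0 < σ := lt_of_le_of_lt h0 hF
  have h2 : 3 * (K : ℝ) ≤ ε * σ := by
    rw [div_lt_iff₀ hε] at hF
    linarith
  have h3 : (T.card : ℝ) ^ 2 * σ ≤ (ε * x) * σ := by
    refine le_trans h1 ?_
    calc 3 * (K : ℝ) * x ≤ (ε * σ) * x := by
          apply mul_le_mul_of_nonneg_right h2 (by positivity)
      _ = _ := by ring
  exact le_of_mul_le_mul_right h3 hσpos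

end Pool.Agent.H380R2
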