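import Mathlib
import Pool.Agent.H380R2.Energy
import Pool.Agent.H380R2.Chain
import Pool.Agent.H380R2.Sieve

set_option autoImplicit false

open Finset Filter Topology

namespace Pool.Agent.H380R2

/-- `h`-tuples with entries in `T` -/
def tup (T : Finset ℕ) (h : ℕ) : Finset (Fin h → ℕ) := Fintype.piFinset (fun _ => T)

lemma card_tup (T : Finset ℕ) (h : ℕ) : (tup T h).card = T.card ^ h := by
  unfold tup
  rw [Fintype.card_piFinset_const]

/-- number of pairs of `h`-tuples with congruent sums -/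
def enh (T : Finset ℕ) (h M : ℕ) : ℕ := coll (tup T h) (fun v => ∑ i, v i) M

lemma expSum_tup (T : Finset ℕ) (h M k : ℕ) :
    expSum (tup T h) (fun v => ∑ i, v i) M k = (expSum T id M k) ^ h := by
  have h1 : (expSum T id M k) ^ h = ∏ _i : Fin h, ∑ a ∈ T,
      Complex.exp (2 * Real.pi * Complex.I * ((k : ℂ) * (a : ℂ)) / (M : ℂ)) := by
    rw [Finset.prod_const, Finset.card_univ, Fintype.card_fin]
    rfl
  rw [h1, Finset.prod_univ_sum, expSum]
  apply Finset.sum_congr rfl
  intro v _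
  rw [← Complex.exp_sum]
  congr 1
  push_cast
  rw [Finset.mul_sum, Finset.mul_sum, Finset.sum_div]

lemma sum_normSq_pow (T : Finset ℕ) (h M : ℕ) (hM : 0 < M) :
    ∑ k ∈ range M, (Complex.normSq (expSum T id M k)) ^ h = (M : ℝ) * (enh T h M : ℝ) := by
  rw [enh, ← sum_normSq (tup T h) (fun v => ∑ i, v i) M hM]
  apply Finset.sum_congr rfl
  intro k _
  rw [expSum_tup, map_pow]

/-- the frequencies with denominator dividing `t * M` but not `M`: first moment -/
lemma diff_eq (T : Finset ℕ) (t M : ℕ) (ht : 0 < t) (hM : 0 < M) :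
    ((t * M : ℕ) : ℝ) * coll T id (t * M) - (M : ℝ) * coll T id M =
      ∑ k ∈ (range (t * M)).filter (fun k => ¬ t ∣ k),
        Complex.normSq (expSum T id (t * M) k) := by
  have htM : 0 < t * M := Nat.mul_pos ht hM
  have hsplit : ∀ g : ℕ → ℝ, ∑ k ∈ (range (t * M)).filter (fun k => ¬ t ∣ k), g k =
      ∑ k ∈ range (t * M), g k - ∑ k ∈ range M, g (t * k) := by
    intro g
    rw [← sum_multiples t M ht g, ← Finset.sum_filter_add_sum_filter_not (range (t * M))
      (fun k => t ∣ k) g]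
    ring
  rw [hsplit, sum_normSq T id (t * M) htM, ← sum_normSq T id M hM]
  congr 1
  apply Finset.sum_congr rfl
  intro k _
  rw [expSum_mul T id t M k ht]

lemma diff_nonneg (T : Finset ℕ) (t M : ℕ) (ht : 0 < t) (hM : 0 < M) :
    0 ≤ ((t * M : ℕ) : ℝ) * coll T id (t * M) - (M : ℝ) * coll T id M := by
  rw [diff_eq T t M ht hM]
  exact Finset.sum_nonneg (fun k _ => Complex.normSq_nonneg _)

/-- Hölder on the frequencies with denominator dividing `t * M` but not `M` -/
lemma diff_pow (T : Finset ℕ) (n t M : ℕ) (ht : 0 < t) (hM : 0 < M) :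
    (((t * M : ℕ) : ℝ) * coll T id (t * M) - (M : ℝ) * coll T id M) ^ (n + 1) ≤
      ((t * M : ℕ) : ℝ) ^ n *
        (((t * M : ℕ) : ℝ) * enh T (n + 1) (t * M) - (M : ℝ) * enh T (n + 1) M) := by
  have htM : 0 < t * M := Nat.mul_pos ht hM
  have hsplit : ∀ g : ℕ → ℝ, ∑ k ∈ (range (t * M)).filter (fun k => ¬ t ∣ k), g k =
      ∑ k ∈ range (t * M), g k - ∑ k ∈ range M, g (t * k) := by
    intro g
    rw [← sum_multiples t M ht g, ← Finset.sum_filter_add_sum_filter_not (range (t * M))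
      (fun k => t ∣ k) g]
    ring
  have h2 : ∑ k ∈ (range (t * M)).filter (fun k => ¬ t ∣ k),
      (Complex.normSq (expSum T id (t * M) k)) ^ (n + 1)
      = ((t * M : ℕ) : ℝ) * enh T (n + 1) (t * M) - (M : ℝ) * enh T (n + 1) M := by
    rw [hsplit (fun k => (Complex.normSq (expSum T id (t * M) k)) ^ (n + 1)),
      sum_normSq_pow T (n + 1) (t * M) htM, ← sum_normSq_pow T (n + 1) M hM]
    congr 1
    apply Finset.sum_congr rfl
    intro k _
    rw [expSum_mul T id t M k ht]
  rw [diff_eq T t M ht hM, ← h2]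
  refine le_trans (pow_sum_le_card_mul_sum_pow (fun k _ => Complex.normSq_nonneg _) n) ?_
  apply mul_le_mul_of_nonneg_right
  · apply pow_le_pow_left₀ (by positivity)
    have : ((range (t * M)).filter (fun k => ¬ t ∣ k)).card ≤ t * M := by
      refine le_trans (Finset.card_filter_le _ _) ?_
      simp
    exact_mod_cast this
  · apply Finset.sum_nonneg
    intro k _
    have := Complex.normSq_nonneg (expSum T id (t * M) k)
    positivity

lemma base_pow (T : Finset ℕ) (n M : ℕ) (hM : 0 < M) :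
    ((M : ℝ) * coll T id M) ^ (n + 1) ≤ (M : ℝ) ^ n * ((M : ℝ) * enh T (n + 1) M) := by
  rw [← sum_normSq T id M hM, ← sum_normSq_pow T (n + 1) M hM]
  refine le_trans (pow_sum_le_card_mul_sum_pow (fun k _ => Complex.normSq_nonneg _) n) ?_
  rw [Finset.card_range]

/-- upper bound for the energy when all representation numbers are at most `K` -/
lemma enh_le (T : Finset ℕ) (X K h M : ℕ) (hTX : ∀ a ∈ T, a ≤ X)
    (hK : ∀ m, ((tup T h).filter (fun v => ∑ i, v i = m)).card ≤ K) :
    enh T h M ≤ T.card ^ h * (K * (h * X / M + 1)) := by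
  classical
  unfold enh coll
  set P := tup T h with hP
  have h1 : ((P ×ˢ P).filter (fun q : (Fin h → ℕ) × (Fin h → ℕ) =>
      (∑ i, q.1 i) % M = (∑ i, q.2 i) % M)).card =
      ∑ p ∈ P, (P.filter (fun p' => (∑ i, p i) % M = (∑ i, p' i) % M)).card := by
    rw [Finset.card_filter, Finset.sum_product]
    apply Finset.sum_congr rfl
    intro p _
    rw [Finset.card_filter]
  rw [h1]
  have h2 : ∀ p ∈ P, (P.filter (fun p' => (∑ i, p i) % M = (∑ i, p' i) % M)).card ≤
      K * (h * X / M + 1) := by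
    intro p _
    have h3 : (P.filter (fun p' => (∑ i, p i) % M = (∑ i, p' i) % M)) ⊆
        (range (h * X / M + 1)).biUnion
          (fun j => P.filter (fun p' => ∑ i, p' i = M * j + (∑ i, p i) % M)) := by
      intro p' hp'
      rw [Finset.mem_filter] at hp'
      obtain ⟨hp'1, hp'2⟩ := hp'
      rw [Finset.mem_biUnion]
      refine ⟨(∑ i, p' i) / M, ?_, ?_⟩
      · rw [Finset.mem_range, Nat.lt_succ_iff]
        apply Nat.div_le_div_right
        rw [hP, tup, Fintype.mem_piFinset] at hp'1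
        calc ∑ i, p' i ≤ ∑ _i : Fin h, X := Finset.sum_le_sum (fun i _ => hTX _ (hp'1 i))
          _ = h * X := by rw [Finset.sum_const, Finset.card_univ, Fintype.card_fin, smul_eq_mul]
      · rw [Finset.mem_filter]
        refine ⟨hp'1, ?_⟩
        rw [hp'2]
        exact (Nat.div_add_mod _ _).symm
    refine le_trans (Finset.card_le_card h3) ?_
    refine le_trans (Finset.card_biUnion_le) ?_
    refine le_trans (Finset.sum_le_sum (fun j _ => hK _)) ?_
    rw [Finset.sum_const, Finset.card_range, smul_eq_mul, mul_comm]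
  refine le_trans (Finset.sum_le_sum h2) ?_
  rw [Finset.sum_const, smul_eq_mul, hP, card_tup]

lemma scaled_enh_le (T : Finset ℕ) (X K h M : ℕ) (hTX : ∀ a ∈ T, a ≤ X) (hMX : M ≤ X)
    (hK : ∀ m, ((tup T h).filter (fun v => ∑ i, v i = m)).card ≤ K) :
    (M : ℝ) * enh T h M ≤ ((h : ℝ) + 1) * K * X * (T.card : ℝ) ^ h := by
  have h4 := enh_le T X K h M hTX hK
  have h6 : M * enh T h M ≤ (h + 1) * K * X * T.card ^ h := by
    have h7 : M * (h * X / M + 1) ≤ (h + 1) * X := by
      rw [mul_add, mul_one, add_mul, one_mul]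
      exact Nat.add_le_add (Nat.mul_div_le (h * X) M) hMX
    calc M * enh T h M ≤ M * (T.card ^ h * (K * (h * X / M + 1))) :=
          Nat.mul_le_mul_left _ h4
      _ = T.card ^ h * K * (M * (h * X / M + 1)) := by ring
      _ ≤ T.card ^ h * K * ((h + 1) * X) := Nat.mul_le_mul_left _ h7
      _ = _ := by ring
  exact_mod_cast h6

/-- a convexity inequality -/
lemma add_pow_le' (h : ℕ) (hh : 1 ≤ h) (x y : ℝ) (hx : 0 ≤ x) (hy : 0 ≤ y) :
    (x + y) ^ h ≤ 3 / 2 * x ^ h + (3 * (h : ℝ) + 1) ^ h * y ^ h := by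
  have hh' : (1 : ℝ) ≤ h := by exact_mod_cast hh
  by_cases hc : 3 * (h : ℝ) * y ≤ x
  · -- (1 + 1/(3h))^h ≤ 3/2
    have hb : (2 : ℝ) / 3 ≤ (1 + (-(1 / (3 * (h : ℝ) + 1)))) ^ h := by
      have h1 := one_add_mul_le_pow (a := -(1 / (3 * (h : ℝ) + 1))) (by
        have : 1 / (3 * (h : ℝ) + 1) ≤ 1 := by
          rw [div_le_one (by positivity)]
          linarith
        linarith) h
      refine le_trans ?_ h1
      have : (h : ℝ) * -(1 / (3 * (h : ℝ) + 1)) = -((h : ℝ) / (3 * (h : ℝ) + 1)) := by ring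
      rw [this]
      have h2 : (h : ℝ) / (3 * (h : ℝ) + 1) ≤ 1 / 3 := by
        rw [div_le_div_iff₀ (by positivity) (by norm_num)]
        linarith
      linarith
    have hbase : (1 + (-(1 / (3 * (h : ℝ) + 1)))) * (x + y) ≤ x := by
      have h3 : (1 + (-(1 / (3 * (h : ℝ) + 1)))) = (3 * (h : ℝ)) / (3 * (h : ℝ) + 1) := by
        field_simp
        ring
      rw [h3, div_mul_eq_mul_div, div_le_iff₀ (by positivity)]
      nlinarith
    have hnn : 0 ≤ (1 + (-(1 / (3 * (h : ℝ) + 1)))) := by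
      have : 1 / (3 * (h : ℝ) + 1) ≤ 1 := by
        rw [div_le_one (by positivity)]
        linarith
      linarith
    have h4 : ((1 + (-(1 / (3 * (h : ℝ) + 1)))) * (x + y)) ^ h ≤ x ^ h :=
      pow_le_pow_left₀ (mul_nonneg hnn (by positivity)) hbase h
    rw [mul_pow] at h4
    have h5 : (2 : ℝ) / 3 * (x + y) ^ h ≤ x ^ h := by
      refine le_trans ?_ h4
      apply mul_le_mul_of_nonneg_right hb (by positivity)
    have h6 : (0 : ℝ) ≤ (3 * (h : ℝ) + 1) ^ h * y ^ h := by positivity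
    linarith
  · push Not at hc
    have h1 : x + y ≤ (3 * (h : ℝ) + 1) * y := by linarith
    have h2 : (x + y) ^ h ≤ ((3 * (h : ℝ) + 1) * y) ^ h := pow_le_pow_left₀ (by positivity) h1 h
    rw [mul_pow] at h2
    have h3 : (0 : ℝ) ≤ 3 / 2 * x ^ h := by positivity
    linarith

/-- summation along a divisibility chain, order `n + 1` -/
lemma chain_energy_h (T : Finset ℕ) (n : ℕ) (hn : 1 ≤ n) (M : ℕ → ℕ)
    (hM0 : 0 < M 0) (hdvd : ∀ j, M j ∣ M (j + 1)) (hlt : ∀ j, M j < M (j + 1)) (k : ℕ) :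
    ∑ j ∈ range (k + 1), (M j : ℝ) * (coll T id (M j) : ℝ) ^ (n + 1) +
      3 * ((M k : ℝ) * (coll T id (M k) : ℝ) ^ (n + 1)) ≤
      4 * (3 * ((n + 1 : ℕ) : ℝ) + 1) ^ (n + 1) * ((M k : ℝ) * enh T (n + 1) (M k)) := by
  have hMpos : ∀ j, 0 < M j := by
    intro j
    induction j with
    | zero => exact hM0
    | succ j ih => exact lt_trans ih (hlt j)
  set C : ℝ := (3 * ((n + 1 : ℕ) : ℝ) + 1) ^ (n + 1) with hC
  have hC1 : 1 ≤ C := by
    rw [hC]
    apply one_le_pow₀
    push_cast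
    have : (0 : ℝ) ≤ (n : ℝ) := by positivity
    linarith
  induction k with
  | zero =>
    have h := base_pow T n (M 0) hM0
    have hm : (0 : ℝ) < (M 0 : ℝ) ^ n := by
      have : (0 : ℝ) < M 0 := by exact_mod_cast hM0
      positivity
    have h1 : (M 0 : ℝ) * (coll T id (M 0) : ℝ) ^ (n + 1) ≤ (M 0 : ℝ) * enh T (n + 1) (M 0) := by
      have h2 : (M 0 : ℝ) ^ n * ((M 0 : ℝ) * (coll T id (M 0) : ℝ) ^ (n + 1)) ≤
          (M 0 : ℝ) ^ n * ((M 0 : ℝ) * enh T (n + 1) (M 0)) := by
        calc (M 0 : ℝ) ^ n * ((M 0 : ℝ) * (coll T id (M 0) : ℝ) ^ (n + 1)) =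
            ((M 0 : ℝ) * coll T id (M 0)) ^ (n + 1) := by ring
          _ ≤ _ := h
      exact le_of_mul_le_mul_left h2 hm
    have h0 : (0 : ℝ) ≤ (M 0 : ℝ) * enh T (n + 1) (M 0) := by positivity
    rw [Finset.sum_range_one]
    nlinarith
  | succ k ih =>
    rw [Finset.sum_range_succ]
    obtain ⟨t, ht⟩ := hdvd k
    have hMk := hMpos k
    have hMk1 := hMpos (k + 1)
    have ht2 : 2 ≤ t := by
      by_contra hcon
      have : t = 0 ∨ t = 1 := by omega
      have h3 := hlt k
      rcases this with h | h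
      · rw [h, mul_zero] at ht; omega
      · rw [h, mul_one] at ht; omega
    have htM : M (k + 1) = t * M k := by rw [ht, mul_comm]
    have hd := diff_pow T n t (M k) (by omega) hMk
    have hdn := diff_nonneg T t (M k) (by omega) hMk
    rw [← htM] at hd hdn
    set m : ℝ := (M k : ℝ) with hm
    set m' : ℝ := (M (k + 1) : ℝ) with hm'
    set D : ℝ := (coll T id (M k) : ℝ) with hD
    set D' : ℝ := (coll T id (M (k + 1)) : ℝ) with hD'
    set E : ℝ := (enh T (n + 1) (M k) : ℝ) with hE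
    set E' : ℝ := (enh T (n + 1) (M (k + 1)) : ℝ) with hE'
    have hmpos : 0 < m := by rw [hm]; exact_mod_cast hMk
    have hm'pos : 0 < m' := by rw [hm']; exact_mod_cast hMk1
    have hDnn : 0 ≤ D := by rw [hD]; positivity
    have h2m : 2 * m ≤ m' := by
      rw [hm, hm', htM]
      push_cast
      have : (2 : ℝ) ≤ t := by exact_mod_cast ht2
      apply mul_le_mul_of_nonneg_right this
      positivity
    have h2mn : 2 * m ^ n ≤ m' ^ n := by
      have h3 : (2 * m) ^ n ≤ m' ^ n := pow_le_pow_left₀ (by positivity) h2m n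
      rw [mul_pow] at h3
      have h4 : (2 : ℝ) ≤ 2 ^ n := by
        calc (2 : ℝ) = 2 ^ 1 := by norm_num
          _ ≤ 2 ^ n := pow_le_pow_right₀ (by norm_num) hn
      have h5 : 0 ≤ m ^ n := by positivity
      nlinarith
    have key : m' ^ n * (m' * D' ^ (n + 1)) ≤
        m' ^ n * (3 / 4 * (m * D ^ (n + 1)) + C * (m' * E' - m * E)) := by
      have h1 := add_pow_le' (n + 1) (by omega) (m * D) (m' * D' - m * D) (by positivity) hdn
      rw [← hC] at h1
      have h2 : 3 / 2 * (m * D) ^ (n + 1) ≤ m' ^ n * (3 / 4 * (m * D ^ (n + 1))) := by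
        have h3 : 0 ≤ m * D ^ (n + 1) := by positivity
        calc 3 / 2 * (m * D) ^ (n + 1) = 3 / 4 * (2 * m ^ n) * (m * D ^ (n + 1)) := by ring
          _ ≤ 3 / 4 * (m' ^ n) * (m * D ^ (n + 1)) := by
            apply mul_le_mul_of_nonneg_right _ h3
            linarith
          _ = _ := by ring
      have h4 : C * (m' * D' - m * D) ^ (n + 1) ≤ C * (m' ^ n * (m' * E' - m * E)) :=
        mul_le_mul_of_nonneg_left hd (by linarith)
      calc m' ^ n * (m' * D' ^ (n + 1)) = (m * D + (m' * D' - m * D)) ^ (n + 1) := by ring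
        _ ≤ 3 / 2 * (m * D) ^ (n + 1) + C * (m' * D' - m * D) ^ (n + 1) := h1
        _ ≤ m' ^ n * (3 / 4 * (m * D ^ (n + 1))) + C * (m' ^ n * (m' * E' - m * E)) := by
          linarith
        _ = _ := by ring
    have key2 : m' * D' ^ (n + 1) ≤ 3 / 4 * (m * D ^ (n + 1)) + C * (m' * E' - m * E) :=
      le_of_mul_le_mul_left key (by positivity)
    linarith

end Pool.Agent.H380R2
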