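import Mathlib
import Pool.Agent.H380R2.HEnergy

set_option autoImplicit false

open Finset Filter Topology

namespace Pool.Agent.H380R2

/-- Every finite set `T ⊆ S ∩ [0,x]` such that every integer is a sum of at most `K` of the
`h`-tuples with entries in `T` has `o(x^{1/h})` elements. -/
def NegligibleH (h : ℕ) (S : Set ℕ) : Prop :=
  ∀ K : ℕ, ∀ ε : ℝ, 0 < ε → ∀ᶠ x : ℕ in atTop, ∀ T : Finset ℕ, (∀ a ∈ T, a ∈ S ∧ a ≤ x) →
    (∀ m, ((tup T h).filter (fun v => ∑ i, v i = m)).card ≤ K) → (T.card : ℝ) ^ h ≤ ε * x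

lemma negligibleH_iUnion {ι : Type*} [Fintype ι] (n : ℕ) (S : ι → Set ℕ)
    (h : ∀ i, NegligibleH (n + 1) (S i)) : NegligibleH (n + 1) (⋃ i, S i) := by
  classical
  intro K ε hε
  set m : ℕ := Fintype.card ι with hm
  have hpos : (0 : ℝ) < ε / ((m : ℝ) + 1) ^ (n + 1) := by positivity
  have h1 : ∀ᶠ x : ℕ in atTop, ∀ i, ∀ T : Finset ℕ, (∀ a ∈ T, a ∈ S i ∧ a ≤ x) →
    (∀ v, ((tup T (n + 1)).filter (fun p => ∑ i, p i = v)).card ≤ K) →
      (T.card : ℝ) ^ (n + 1) ≤ ε / ((m : ℝ) + 1) ^ (n + 1) * x := by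
    rw [eventually_all]
    intro i
    exact h i K _ hpos
  filter_upwards [h1] with x hx T hT hK
  have h2 : ∀ i, ((T.filter (fun a => a ∈ S i)).card : ℝ) ^ (n + 1) ≤
      ε / ((m : ℝ) + 1) ^ (n + 1) * x := by
    intro i
    apply hx i
    · intro a ha
      rw [Finset.mem_filter] at ha
      exact ⟨ha.2, (hT a ha.1).2⟩
    · intro v
      refine le_trans (Finset.card_le_card ?_) (hK v)
      intro p hp
      simp only [Finset.mem_filter, tup, Fintype.mem_piFinset] at hp ⊢
      exact ⟨fun i => (hp.1 i).1, hp.2⟩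
  have h3 : T ⊆ (Finset.univ : Finset ι).biUnion (fun i => T.filter (fun a => a ∈ S i)) := by
    intro a ha
    obtain ⟨i, hi⟩ := Set.mem_iUnion.1 (hT a ha).1
    rw [Finset.mem_biUnion]
    exact ⟨i, Finset.mem_univ _, Finset.mem_filter.2 ⟨ha, hi⟩⟩
  have h4 : (T.card : ℝ) ≤ ∑ i : ι, ((T.filter (fun a => a ∈ S i)).card : ℝ) := by
    have := le_trans (Finset.card_le_card h3) Finset.card_biUnion_le
    exact_mod_cast this
  calc (T.card : ℝ) ^ (n + 1) ≤ (∑ i : ι, ((T.filter (fun a => a ∈ S i)).card : ℝ)) ^ (n + 1) := by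
        gcongr
    _ ≤ ((Finset.univ : Finset ι).card : ℝ) ^ n *
        ∑ i : ι, ((T.filter (fun a => a ∈ S i)).card : ℝ) ^ (n + 1) :=
        pow_sum_le_card_mul_sum_pow (fun i _ => by positivity) n
    _ ≤ (m : ℝ) ^ n * ∑ _i : ι, ε / ((m : ℝ) + 1) ^ (n + 1) * x := by
        rw [Finset.card_univ]
        apply mul_le_mul_of_nonneg_left (Finset.sum_le_sum (fun i _ => h2 i)) (by positivity)
    _ = (m : ℝ) ^ (n + 1) / ((m : ℝ) + 1) ^ (n + 1) * (ε * x) := by
        rw [Finset.sum_const, Finset.card_univ, nsmul_eq_mul]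
        ring
    _ ≤ 1 * (ε * x) := by
        apply mul_le_mul_of_nonneg_right _ (by positivity)
        rw [div_le_one (by positivity)]
        apply pow_le_pow_left₀ (by positivity)
        linarith
    _ = ε * x := one_mul _

lemma NegligibleH.mono {h : ℕ} {S S' : Set ℕ} (hn : NegligibleH h S) (hS : S' ⊆ S) :
    NegligibleH h S' := by
  intro K ε hε
  filter_upwards [hn K ε hε] with x hx T hT hK
  exact hx T (fun a ha => ⟨hS (hT a ha).1, (hT a ha).2⟩) hK

/-- unordered representations of `n` as a sum of `h` elements of `A` -/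
def msets (A : Set ℕ) (h n : ℕ) : Set (Multiset ℕ) :=
  {s : Multiset ℕ | Multiset.card s = h ∧ (∀ a ∈ s, a ∈ A) ∧ s.sum = n}

/-- the multiset of entries of a tuple -/
def toM {h : ℕ} (v : Fin h → ℕ) : Multiset ℕ := (Finset.univ : Finset (Fin h)).val.map v

lemma toM_card {h : ℕ} (v : Fin h → ℕ) : Multiset.card (toM v) = h := by
  unfold toM
  rw [Multiset.card_map, Finset.card_val, Finset.card_univ, Fintype.card_fin]

lemma toM_sum {h : ℕ} (v : Fin h → ℕ) : (toM v).sum = ∑ i, v i := rfl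

lemma mem_toM {h : ℕ} (v : Fin h → ℕ) (a : ℕ) : a ∈ toM v ↔ ∃ i, v i = a := by
  unfold toM
  rw [Multiset.mem_map]
  constructor
  · rintro ⟨i, _, hi⟩
    exact ⟨i, hi⟩
  · rintro ⟨i, hi⟩
    exact ⟨i, Finset.mem_univ i, hi⟩

lemma msets_finite (A : Set ℕ) (h n : ℕ) : (msets A h n).Finite := by
  have hsub : msets A h n ⊆ toM '' (((tup (Finset.range (n + 1)) h) : Finset (Fin h → ℕ)) :
      Set (Fin h → ℕ)) := by
    rintro s ⟨h1, _, h3⟩
    obtain ⟨l, rfl⟩ : ∃ l : List ℕ, (l : Multiset ℕ) = s := ⟨s.toList, Multiset.coe_toList s⟩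
    have hl : l.length = h := by simpa using h1
    subst hl
    refine ⟨fun i => l.get i, ?_, ?_⟩
    · rw [Finset.mem_coe, tup, Fintype.mem_piFinset]
      intro i
      rw [Finset.mem_range, Nat.lt_succ_iff, ← h3]
      exact Multiset.le_sum_of_mem (Multiset.mem_coe.2 (List.get_mem l i))
    · unfold toM
      have : ((Finset.univ : Finset (Fin l.length)).val.map (fun i => l.get i)) =
          (((List.finRange l.length).map (fun i => l.get i) : List ℕ) : Multiset ℕ) := rfl
      rw [this]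
      exact congrArg _ (List.map_get_finRange l)
  exact Set.Finite.subset (Set.Finite.image _ (Finset.finite_toSet _)) hsub

/-- ordered versus unordered representations -/
lemma ordered_le (A : Set ℕ) (h n : ℕ) (T : Finset ℕ) (hT : ∀ a ∈ T, a ∈ A) :
    ((tup T h).filter (fun v => ∑ i, v i = n)).card ≤ h ^ h * (msets A h n).ncard := by
  classical
  set F := (tup T h).filter (fun v => ∑ i, v i = n) with hF
  set B : Finset (Multiset ℕ) := (msets_finite A h n).toFinset with hB
  have hBcard : (msets A h n).ncard = B.card := by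
    rw [hB, Set.ncard_eq_toFinset_card _ (msets_finite A h n)]
  have hmaps : ∀ v ∈ F, toM v ∈ B := by
    intro v hv
    rw [hF, Finset.mem_filter, tup, Fintype.mem_piFinset] at hv
    rw [hB, Set.Finite.mem_toFinset]
    refine ⟨toM_card v, ?_, ?_⟩
    · intro a ha
      rw [mem_toM] at ha
      obtain ⟨i, rfl⟩ := ha
      exact hT _ (hv.1 i)
    · rw [toM_sum]
      exact hv.2
  rw [hBcard, mul_comm]
  have hfib : ∀ s ∈ B, (F.filter (fun v => toM v = s)).card ≤ h ^ h := by
    intro s hs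
    rw [hB, Set.Finite.mem_toFinset] at hs
    have hsub : F.filter (fun v => toM v = s) ⊆ Fintype.piFinset (fun _ : Fin h => s.toFinset) := by
      intro v hv
      rw [Finset.mem_filter] at hv
      rw [Fintype.mem_piFinset]
      intro i
      rw [Multiset.mem_toFinset, ← hv.2, mem_toM]
      exact ⟨i, rfl⟩
    refine le_trans (Finset.card_le_card hsub) ?_
    rw [Fintype.card_piFinset_const]
    apply Nat.pow_le_pow_left
    calc s.toFinset.card ≤ Multiset.card s := Multiset.toFinset_card_le s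
      _ = h := hs.1
  calc F.card = ∑ s ∈ B, (F.filter (fun v => toM v = s)).card :=
        Finset.card_eq_sum_card_fiberwise hmaps
    _ ≤ ∑ _s ∈ B, h ^ h := Finset.sum_le_sum hfib
    _ = B.card * h ^ h := by rw [Finset.sum_const, smul_eq_mul]

/-- a set which is negligible of order `h` and has bounded `r_{A,h}` has `o(x^{1/h})` elements -/
lemma negligibleH_count {A : Set ℕ} {h : ℕ} (hn : NegligibleH h A)
    (hr : ∃ r, ∀ n, (msets A h n).ncard ≤ r) (ε : ℝ)
    (hε : 0 < ε) : ∀ᶠ x : ℕ in atTop, (((A ∩ Set.Iic x).ncard : ℝ)) ^ h ≤ ε * x := by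
  obtain ⟨r, hr⟩ := hr
  filter_upwards [hn (h ^ h * r) ε hε] with x hx
  rw [ncard_trunc]
  apply hx
  · intro a ha
    rw [mem_trunc] at ha
    exact ⟨ha.2, ha.1⟩
  · intro v
    refine le_trans (ordered_le A h v (trunc A x) (fun a ha => ((mem_trunc A x a).1 ha).2)) ?_
    exact Nat.mul_le_mul_left _ (hr v)

/-- bases of order `h` have too many elements -/
lemma negligibleH_basis {A : Set ℕ} {h : ℕ} (hn : NegligibleH h A)
    (hr : ∃ r, ∀ n, (msets A h n).ncard ≤ r) :
    ∃ᶠ n in atTop, msets A h n = ∅ := by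
  classical
  intro hcon
  have h1 := negligibleH_count hn hr (1 / 4) (by norm_num)
  rw [eventually_atTop] at h1 hcon
  obtain ⟨N, hN⟩ := h1
  obtain ⟨n₀, hn₀⟩ := hcon
  set x := N + 2 * n₀ + 1 with hx
  have h2 := hN x (by omega)
  rw [ncard_trunc] at h2
  have h3 : (Finset.Icc n₀ x) ⊆ (tup (trunc A x) h).image (fun v => ∑ i, v i) := by
    intro v hv
    rw [Finset.mem_Icc] at hv
    have h4 := hn₀ v hv.1
    obtain ⟨s, hs⟩ := Set.nonempty_iff_ne_empty.2 h4
    obtain ⟨l, rfl⟩ : ∃ l : List ℕ, (l : Multiset ℕ) = s := ⟨s.toList, Multiset.coe_toList s⟩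
    obtain ⟨g1, g2, g3⟩ := hs
    have hl : l.length = h := by simpa using g1
    subst hl
    rw [Finset.mem_image]
    refine ⟨fun i => l.get i, ?_, ?_⟩
    · rw [tup, Fintype.mem_piFinset]
      intro i
      rw [mem_trunc]
      refine ⟨?_, g2 _ (Multiset.mem_coe.2 (List.get_mem l i))⟩
      have : l.get i ≤ v := by
        rw [← g3]
        exact Multiset.le_sum_of_mem (Multiset.mem_coe.2 (List.get_mem l i))
      omega
    · rw [← g3, Multiset.sum_coe]
      rw [← List.sum_ofFn]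
      congr 1
      exact List.ofFn_get l
  have h4 := le_trans (Finset.card_le_card h3) Finset.card_image_le
  rw [Nat.card_Icc, card_tup] at h4
  have h5 : ((x + 1 - n₀ : ℕ) : ℝ) ≤ ((trunc A x).card : ℝ) ^ h := by
    exact_mod_cast h4
  have h6 : ((x + 1 - n₀ : ℕ) : ℝ) = (x : ℝ) + 1 - n₀ := by
    rw [Nat.cast_sub (by omega)]
    push_cast
    ring
  rw [h6] at h5
  have h7 : (x : ℝ) = N + 2 * n₀ + 1 := by rw [hx]; push_cast; ring
  have h8 : (0 : ℝ) ≤ N := by positivity
  have h9 : (0 : ℝ) ≤ n₀ := by positivity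
  rw [h7] at h5 h2
  linarith

end Pool.Agent.H380R2
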