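import Mathlib
import Pool.Agent.H380R2.HEnergy
import Pool.Agent.H380R2.HAssembly

set_option autoImplicit false

open Finset Filter Topology

namespace Pool.Agent.H380R2

/-- finite form, order `n + 1`, divisibility chain -/
lemma chain_bound_h (T : Finset ℕ) (X K n : ℕ) (hn : 1 ≤ n) (M : ℕ → ℕ)
    (hM0 : 0 < M 0) (hdvd : ∀ j, M j ∣ M (j + 1)) (hlt : ∀ j, M j < M (j + 1)) (k : ℕ)
    (hk : M k ≤ X) (hTX : ∀ a ∈ T, a ≤ X)
    (hK : ∀ m, ((tup T (n + 1)).filter (fun v => ∑ i, v i = m)).card ≤ K)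
    (ρ : ℕ → ℕ) (hρ : ∀ j, (T.image (fun a => a % M j)).card ≤ ρ j) :
    (T.card : ℝ) ^ (n + 1) * ∑ j ∈ range (k + 1), (M j : ℝ) / (ρ j : ℝ) ^ (n + 1) ≤
      4 * (3 * ((n + 1 : ℕ) : ℝ) + 1) ^ (n + 1) * ((((n + 1 : ℕ) : ℝ) + 1) * K * X) := by
  rcases Finset.eq_empty_or_nonempty T with rfl | hne
  · simp only [Finset.card_empty, Nat.cast_zero, ne_eq, Nat.add_eq_zero_iff, one_ne_zero,
      and_false, not_false_eq_true, zero_pow, zero_mul]
    positivity
  have hnc : (0 : ℝ) < (T.card : ℝ) := by exact_mod_cast hne.card_pos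
  have hρpos : ∀ j, (0 : ℝ) < ρ j := by
    intro j
    have : 0 < (T.image (fun a => a % M j)).card := (hne.image _).card_pos
    have := lt_of_lt_of_le this (hρ j)
    exact_mod_cast this
  have h1 := chain_energy_h T n hn M hM0 hdvd hlt k
  set C : ℝ := (3 * ((n + 1 : ℕ) : ℝ) + 1) ^ (n + 1) with hC
  have hCpos : 0 ≤ C := by rw [hC]; positivity
  have h2 : ∀ j, ((T.card : ℝ) ^ 2) ^ (n + 1) * ((M j : ℝ) / (ρ j : ℝ) ^ (n + 1)) ≤
      (M j : ℝ) * (coll T id (M j) : ℝ) ^ (n + 1) := by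
    intro j
    have h3 := coll_ge T id (M j)
    have h4 : (T.card : ℝ) ^ 2 ≤ (ρ j : ℝ) * coll T id (M j) := by
      refine le_trans h3 ?_
      apply mul_le_mul_of_nonneg_right _ (by positivity)
      exact_mod_cast hρ j
    have h5 : ((T.card : ℝ) ^ 2) ^ (n + 1) ≤
        (ρ j : ℝ) ^ (n + 1) * (coll T id (M j) : ℝ) ^ (n + 1) := by
      rw [← mul_pow]
      exact pow_le_pow_left₀ (by positivity) h4 _
    rw [← mul_div_assoc, div_le_iff₀ (by have := hρpos j; positivity)]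
    have h6 : (0 : ℝ) ≤ M j := by positivity
    calc ((T.card : ℝ) ^ 2) ^ (n + 1) * (M j : ℝ) ≤
        ((ρ j : ℝ) ^ (n + 1) * (coll T id (M j) : ℝ) ^ (n + 1)) * (M j : ℝ) :=
          mul_le_mul_of_nonneg_right h5 h6
      _ = _ := by ring
  have h3 : ((T.card : ℝ) ^ 2) ^ (n + 1) *
      ∑ j ∈ range (k + 1), (M j : ℝ) / (ρ j : ℝ) ^ (n + 1) ≤
      4 * C * ((M k : ℝ) * enh T (n + 1) (M k)) := by
    rw [Finset.mul_sum]
    refine le_trans (Finset.sum_le_sum (fun j _ => h2 j)) ?_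
    have : (0 : ℝ) ≤ 3 * ((M k : ℝ) * (coll T id (M k) : ℝ) ^ (n + 1)) := by positivity
    linarith
  have h5 := scaled_enh_le T X K (n + 1) (M k) hTX hk hK
  have h6 : (T.card : ℝ) ^ (n + 1) *
      ((T.card : ℝ) ^ (n + 1) * ∑ j ∈ range (k + 1), (M j : ℝ) / (ρ j : ℝ) ^ (n + 1)) ≤
      (T.card : ℝ) ^ (n + 1) * (4 * C * ((((n + 1 : ℕ) : ℝ) + 1) * K * X)) := by
    calc (T.card : ℝ) ^ (n + 1) *
        ((T.card : ℝ) ^ (n + 1) * ∑ j ∈ range (k + 1), (M j : ℝ) / (ρ j : ℝ) ^ (n + 1)) =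
        ((T.card : ℝ) ^ 2) ^ (n + 1) *
          ∑ j ∈ range (k + 1), (M j : ℝ) / (ρ j : ℝ) ^ (n + 1) := by ring
      _ ≤ 4 * C * ((M k : ℝ) * enh T (n + 1) (M k)) := h3
      _ ≤ 4 * C * ((((n + 1 : ℕ) : ℝ) + 1) * K * X * (T.card : ℝ) ^ (n + 1)) :=
          mul_le_mul_of_nonneg_left h5 (by positivity)
      _ = _ := by ring
  exact le_of_mul_le_mul_left h6 (by positivity)

/-- `S` occupies few residue classes along a divisibility chain, with respect to order `h` -/
def ThinAlongChainH (h : ℕ) (S : Set ℕ) : Prop :=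
  ∃ M : ℕ → ℕ, 0 < M 0 ∧ (∀ j, M j ∣ M (j + 1) ∧ M j < M (j + 1)) ∧
    ¬ Summable (fun j => (M j : ℝ) / (numClasses S (M j) : ℝ) ^ h)

lemma ThinAlongChainH.negligible {n : ℕ} (hn : 1 ≤ n) {S : Set ℕ}
    (h : ThinAlongChainH (n + 1) S) : NegligibleH (n + 1) S := by
  obtain ⟨M, hM0, hM, hns⟩ := h
  intro K ε hε
  have hMpos : ∀ j, 0 < M j := by
    intro j
    induction j with
    | zero => exact hM0
    | succ j ih => exact lt_trans ih (hM j).2
  set C : ℝ := 4 * (3 * ((n + 1 : ℕ) : ℝ) + 1) ^ (n + 1) * ((((n + 1 : ℕ) : ℝ) + 1) * K) with hC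
  have hC0 : 0 ≤ C := by rw [hC]; positivity
  obtain ⟨k, hk⟩ : ∃ k, C / ε <
      ∑ j ∈ range (k + 1), (M j : ℝ) / (numClasses S (M j) : ℝ) ^ (n + 1) := by
    by_contra hcon
    push Not at hcon
    apply hns
    apply summable_of_sum_range_le (c := C / ε)
    · intro j
      positivity
    · intro m
      refine le_trans ?_ (hcon m)
      rw [Finset.sum_range_succ]
      have : (0 : ℝ) ≤ (M m : ℝ) / (numClasses S (M m) : ℝ) ^ (n + 1) := by positivity
      linarith
  filter_upwards [eventually_ge_atTop (M k)] with x hx T hT hK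
  have h1 := chain_bound_h T x K n hn M hM0 (fun j => (hM j).1) (fun j => (hM j).2) k hx
    (fun a ha => (hT a ha).2) hK (fun j => numClasses S (M j))
    (fun j => image_le_numClasses S T (fun a ha => (hT a ha).1) (M j) (hMpos j))
  set σ : ℝ := ∑ j ∈ range (k + 1), (M j : ℝ) / (numClasses S (M j) : ℝ) ^ (n + 1) with hσ
  have h0 : (0 : ℝ) ≤ C / ε := by positivity
  have hσpos : 0 < σ := lt_of_le_of_lt h0 hk
  have h2 : C ≤ ε * σ := by
    rw [div_lt_iff₀ hε] at hk
    linarith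
  have h3 : (T.card : ℝ) ^ (n + 1) * σ ≤ (ε * x) * σ := by
    refine le_trans h1 ?_
    calc 4 * (3 * ((n + 1 : ℕ) : ℝ) + 1) ^ (n + 1) * ((((n + 1 : ℕ) : ℝ) + 1) * K * x) = C * x := by
          rw [hC]; ring
      _ ≤ (ε * σ) * x := by
          apply mul_le_mul_of_nonneg_right h2 (by positivity)
      _ = _ := by ring
  exact le_of_mul_le_mul_right h3 hσpos

/-- the nonzero fractions with denominators in a finite set of pairwise coprime moduli
contribute to the moment of order `2 (n + 1)` -/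
lemma coprime_energy_h (T : Finset ℕ) (n : ℕ) (F : Finset ℕ)
    (hpos : ∀ m ∈ F, 0 < m) (hco : (F : Set ℕ).Pairwise Nat.Coprime) :
    ∑ m ∈ F, ((m : ℝ) * coll T id m - (T.card : ℝ) ^ 2) ^ (n + 1) / (m : ℝ) ^ n ≤
      ((∏ m ∈ F, m : ℕ) : ℝ) * enh T (n + 1) (∏ m ∈ F, m) := by
  classical
  set M : ℕ := ∏ m ∈ F, m with hM
  have hMpos : 0 < M := Finset.prod_pos hpos
  have hcof : ∀ m ∈ F, (M / m) * m = M := fun m hm =>
    Nat.div_mul_cancel (Finset.dvd_prod_of_mem _ hm)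
  have hcofpos : ∀ m ∈ F, 0 < M / m := fun m hm =>
    Nat.div_pos (Nat.le_of_dvd hMpos (Finset.dvd_prod_of_mem _ hm)) (hpos m hm)
  set g : ℕ → ℝ := fun k => (Complex.normSq (expSum T id M k)) ^ (n + 1) with hg
  have hgnn : ∀ k, 0 ≤ g k := fun k => by
    rw [hg]
    have := Complex.normSq_nonneg (expSum T id M k)
    positivity
  have hstep : ∀ m ∈ F, ((m : ℝ) * coll T id m - (T.card : ℝ) ^ 2) ^ (n + 1) / (m : ℝ) ^ n ≤
      ∑ a ∈ (range m).filter (fun a => 0 < a), g ((M / m) * a) := by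
    intro m hm
    have hmpos := hpos m hm
    have h0 : Complex.normSq (expSum T id m 0) = (T.card : ℝ) ^ 2 := by
      have : expSum T id m 0 = (T.card : ℂ) := by
        unfold expSum
        simp
      rw [this, Complex.normSq_natCast, sq]
    have hfr : ∀ h : ℕ → ℝ, ∑ a ∈ (range m).filter (fun a => 0 < a), h a =
        ∑ a ∈ range m, h a - h 0 := by
      intro h
      rw [← Finset.sum_filter_add_sum_filter_not (range m) (fun a => 0 < a) h]
      have : (range m).filter (fun a => ¬ 0 < a) = {0} := by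
        ext a
        simp only [Finset.mem_filter, Finset.mem_range, Finset.mem_singleton]
        omega
      rw [this, Finset.sum_singleton]
      ring
    have h1 : (m : ℝ) * coll T id m - (T.card : ℝ) ^ 2 =
        ∑ a ∈ (range m).filter (fun a => 0 < a), Complex.normSq (expSum T id m a) := by
      rw [hfr (fun a => Complex.normSq (expSum T id m a)), sum_normSq T id m hmpos, h0]
    have hmn : (0 : ℝ) < (m : ℝ) ^ n := by
      have : (0 : ℝ) < m := by exact_mod_cast hmpos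
      positivity
    rw [h1, div_le_iff₀ hmn]
    refine le_trans (pow_sum_le_card_mul_sum_pow (fun a _ => Complex.normSq_nonneg _) n) ?_
    have h2 : ∀ a, g ((M / m) * a) = (Complex.normSq (expSum T id m a)) ^ (n + 1) := by
      intro a
      rw [hg]
      simp only
      have := expSum_mul T id (M / m) m a (hcofpos m hm)
      rw [hcof m hm] at this
      rw [this]
    simp_rw [h2]
    rw [mul_comm]
    apply mul_le_mul_of_nonneg_left
    · apply pow_le_pow_left₀ (by positivity)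
      have : ((range m).filter (fun a => 0 < a)).card ≤ m := by
        refine le_trans (Finset.card_filter_le _ _) ?_
        simp
      exact_mod_cast this
    · apply Finset.sum_nonneg
      intro a _
      have := Complex.normSq_nonneg (expSum T id m a)
      positivity
  refine le_trans (Finset.sum_le_sum hstep) ?_
  rw [← sum_normSq_pow T (n + 1) M hMpos]
  rw [Finset.sum_sigma']
  have hinj : Set.InjOn (fun x : (_ : ℕ) × ℕ => (M / x.1) * x.2)
      ((F.sigma (fun m => (range m).filter (fun a => 0 < a)) : Finset _) : Set _) := by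
    rintro ⟨m, a⟩ h1 ⟨m', a'⟩ h2 heq
    rw [Finset.mem_coe, Finset.mem_sigma, Finset.mem_filter, Finset.mem_range] at h1 h2
    simp only at h1 h2 heq
    obtain ⟨hm, ha1, ha2⟩ := h1
    obtain ⟨hm', ha1', ha2'⟩ := h2
    by_cases hmm : m = m'
    · subst hmm
      have := Nat.eq_of_mul_eq_mul_left (hcofpos m hm) heq
      rw [this]
    · exfalso
      have hcop : Nat.Coprime m m' := hco hm hm' hmm
      have h3 : a * m' = a' * m := by
        have h4 : M * (a * m') = M * (a' * m) := by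
          calc M * (a * m') = ((M / m) * m) * (a * m') := by rw [hcof m hm]
            _ = ((M / m) * a) * (m * m') := by ring
            _ = ((M / m') * a') * (m * m') := by rw [heq]
            _ = ((M / m') * m') * (a' * m) := by ring
            _ = M * (a' * m) := by rw [hcof m' hm']
        exact Nat.eq_of_mul_eq_mul_left hMpos h4
      have h5 : m ∣ a * m' := by
        rw [h3]
        exact Dvd.intro_left _ rfl
      have h6 : m ∣ a := hcop.dvd_of_dvd_mul_right h5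
      have := Nat.le_of_dvd ha2 h6
      omega
  have hsum : ∑ x ∈ F.sigma (fun m => (range m).filter (fun a => 0 < a)), g ((M / x.1) * x.2) =
      ∑ k ∈ (F.sigma (fun m => (range m).filter (fun a => 0 < a))).image
        (fun x : (_ : ℕ) × ℕ => (M / x.1) * x.2), g k := by
    rw [Finset.sum_image hinj]
  rw [hsum]
  apply Finset.sum_le_sum_of_subset_of_nonneg
  · intro k hk
    rw [Finset.mem_image] at hk
    obtain ⟨⟨m, a⟩, hx, rfl⟩ := hk
    rw [Finset.mem_sigma, Finset.mem_filter, Finset.mem_range] at hx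
    simp only at hx ⊢
    rw [Finset.mem_range]
    calc (M / m) * a < (M / m) * m := Nat.mul_lt_mul_of_pos_left hx.2.1 (hcofpos m hx.1)
      _ = M := hcof m hx.1
  · intro k _ _
    exact hgnn k

/-- finite form, order `n + 1`, pairwise coprime moduli -/
lemma sieve_bound_h (T : Finset ℕ) (X K n : ℕ) (F : Finset ℕ)
    (hpos : ∀ m ∈ F, 0 < m) (hco : (F : Set ℕ).Pairwise Nat.Coprime)
    (hMX : ∏ m ∈ F, m ≤ X) (hTX : ∀ a ∈ T, a ≤ X)
    (hK : ∀ m, ((tup T (n + 1)).filter (fun v => ∑ i, v i = m)).card ≤ K)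
    (ρ : ℕ → ℕ) (hρ : ∀ m ∈ F, (T.image (fun a => a % m)).card ≤ ρ m) (hρm : ∀ m ∈ F, ρ m ≤ m) :
    (T.card : ℝ) ^ (n + 1) * ∑ m ∈ F, ((m : ℝ) / (ρ m : ℝ) - 1) ^ (n + 1) / (m : ℝ) ^ n ≤
      (((n + 1 : ℕ) : ℝ) + 1) * K * X := by
  rcases Finset.eq_empty_or_nonempty T with rfl | hne
  · simp only [Finset.card_empty, Nat.cast_zero, ne_eq, Nat.add_eq_zero_iff, one_ne_zero,
      and_false, not_false_eq_true, zero_pow, zero_mul]
    positivity
  have hnc : (0 : ℝ) < (T.card : ℝ) := by exact_mod_cast hne.card_pos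
  set M : ℕ := ∏ m ∈ F, m with hM
  have hρpos : ∀ m ∈ F, (0 : ℝ) < ρ m := by
    intro m hm
    have : 0 < (T.image (fun a => a % m)).card := (hne.image _).card_pos
    have := lt_of_lt_of_le this (hρ m hm)
    exact_mod_cast this
  have h1 := coprime_energy_h T n F hpos hco
  have h2 : ∀ m ∈ F, ((T.card : ℝ) ^ 2) ^ (n + 1) *
      (((m : ℝ) / (ρ m : ℝ) - 1) ^ (n + 1) / (m : ℝ) ^ n) ≤
      ((m : ℝ) * coll T id m - (T.card : ℝ) ^ 2) ^ (n + 1) / (m : ℝ) ^ n := by
    intro m hm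
    have hmpos : (0 : ℝ) < m := by exact_mod_cast hpos m hm
    have h3 := coll_ge T id m
    have h4 : (T.card : ℝ) ^ 2 ≤ (ρ m : ℝ) * coll T id m := by
      refine le_trans h3 ?_
      apply mul_le_mul_of_nonneg_right _ (by positivity)
      exact_mod_cast hρ m hm
    have h5 : (T.card : ℝ) ^ 2 * ((m : ℝ) / (ρ m : ℝ) - 1) ≤
        (m : ℝ) * coll T id m - (T.card : ℝ) ^ 2 := by
      have h6 : (T.card : ℝ) ^ 2 * ((m : ℝ) / (ρ m : ℝ)) ≤ (m : ℝ) * coll T id m := by
        rw [← mul_div_assoc, div_le_iff₀ (hρpos m hm)]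
        nlinarith
      linarith
    have h7 : 0 ≤ (T.card : ℝ) ^ 2 * ((m : ℝ) / (ρ m : ℝ) - 1) := by
      apply mul_nonneg (by positivity)
      rw [sub_nonneg, le_div_iff₀ (hρpos m hm), one_mul]
      exact_mod_cast hρm m hm
    rw [← mul_div_assoc]
    apply div_le_div_of_nonneg_right _ (by positivity)
    rw [← mul_pow]
    exact pow_le_pow_left₀ h7 h5 _
  have h3 : ((T.card : ℝ) ^ 2) ^ (n + 1) *
      ∑ m ∈ F, ((m : ℝ) / (ρ m : ℝ) - 1) ^ (n + 1) / (m : ℝ) ^ n ≤
      (M : ℝ) * enh T (n + 1) M := by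
    rw [Finset.mul_sum]
    exact le_trans (Finset.sum_le_sum h2) h1
  have h5 := scaled_enh_le T X K (n + 1) M hTX hMX hK
  have h6 : (T.card : ℝ) ^ (n + 1) *
      ((T.card : ℝ) ^ (n + 1) * ∑ m ∈ F, ((m : ℝ) / (ρ m : ℝ) - 1) ^ (n + 1) / (m : ℝ) ^ n) ≤
      (T.card : ℝ) ^ (n + 1) * ((((n + 1 : ℕ) : ℝ) + 1) * K * X) := by
    calc (T.card : ℝ) ^ (n + 1) *
        ((T.card : ℝ) ^ (n + 1) * ∑ m ∈ F, ((m : ℝ) / (ρ m : ℝ) - 1) ^ (n + 1) / (m : ℝ) ^ n) =
        ((T.card : ℝ) ^ 2) ^ (n + 1) *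
          ∑ m ∈ F, ((m : ℝ) / (ρ m : ℝ) - 1) ^ (n + 1) / (m : ℝ) ^ n := by ring
      _ ≤ (M : ℝ) * enh T (n + 1) M := h3
      _ ≤ (((n + 1 : ℕ) : ℝ) + 1) * K * X * (T.card : ℝ) ^ (n + 1) := h5
      _ = _ := by ring
  exact le_of_mul_le_mul_left h6 (by positivity)

/-- `S` misses many residue classes modulo the members of a set of pairwise coprime moduli,
with respect to order `h` -/
def SieveThinH (h : ℕ) (S : Set ℕ) : Prop :=
  ∃ P : Set ℕ, (∀ m ∈ P, 0 < m) ∧ P.Pairwise Nat.Coprime ∧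
    ¬ Summable (fun m : P =>
      (((m : ℕ) : ℝ) / (numClasses S m : ℝ) - 1) ^ h / ((m : ℕ) : ℝ) ^ (h - 1))

lemma SieveThinH.negligible {n : ℕ} {S : Set ℕ} (hne : S.Nonempty)
    (h : SieveThinH (n + 1) S) : NegligibleH (n + 1) S := by
  classical
  obtain ⟨P, hpos, hco, hns⟩ := h
  intro K ε hε
  set w : P → ℝ := fun m =>
    (((m : ℕ) : ℝ) / (numClasses S m : ℝ) - 1) ^ (n + 1) / ((m : ℕ) : ℝ) ^ n with hw
  have hns' : ¬ Summable w := hns
  have hwnn : ∀ m, 0 ≤ w m := by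
    intro m
    rw [hw]
    have hm0 := hpos m m.2
    have h1 : (1 : ℝ) ≤ ((m : ℕ) : ℝ) / (numClasses S m : ℝ) := by
      have hfin : ((fun a => a % (m : ℕ)) '' S).Finite := by
        apply Set.Finite.subset (Set.finite_Iio (m : ℕ))
        rintro r ⟨a, _, rfl⟩
        exact Nat.mod_lt _ hm0
      have h2 : 0 < numClasses S m := by
        unfold numClasses
        rw [Set.ncard_pos hfin]
        exact hne.image _
      have h3 : (0 : ℝ) < (numClasses S m : ℝ) := by exact_mod_cast h2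
      rw [le_div_iff₀ h3, one_mul]
      exact_mod_cast numClasses_le S m hm0
    have h4 : (0 : ℝ) ≤ ((m : ℕ) : ℝ) / (numClasses S m : ℝ) - 1 := by linarith
    positivity
  set C : ℝ := (((n + 1 : ℕ) : ℝ) + 1) * K with hC
  have hC0 : 0 ≤ C := by rw [hC]; positivity
  obtain ⟨F, hF⟩ : ∃ F : Finset P, C / ε < ∑ m ∈ F, w m := by
    by_contra hcon
    push Not at hcon
    exact hns' (summable_of_sum_le hwnn hcon)
  set G : Finset ℕ := F.image (fun m : P => (m : ℕ)) with hG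
  have hGP : ∀ m ∈ G, m ∈ P := by
    intro m hm
    rw [hG, Finset.mem_image] at hm
    obtain ⟨m', _, rfl⟩ := hm
    exact m'.2
  have hsumG : ∑ m ∈ F, w m =
      ∑ m ∈ G, ((m : ℝ) / (numClasses S m : ℝ) - 1) ^ (n + 1) / (m : ℝ) ^ n := by
    rw [hG, Finset.sum_image]
    intro a _ b _ hab
    exact Subtype.ext hab
  rw [hsumG] at hF
  have hGpos : ∀ m ∈ G, 0 < m := fun m hm => hpos m (hGP m hm)
  filter_upwards [eventually_ge_atTop (∏ m ∈ G, m)] with x hx T hT hK
  have h1 := sieve_bound_h T x K n G hGpos (fun a ha b hb hab => hco (hGP a ha) (hGP b hb) hab) hx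
    (fun a ha => (hT a ha).2) hK (fun m => numClasses S m)
    (fun m hm => image_le_numClasses S T (fun a ha => (hT a ha).1) m (hGpos m hm))
    (fun m hm => numClasses_le S m (hGpos m hm))
  set σ : ℝ := ∑ m ∈ G, ((m : ℝ) / (numClasses S m : ℝ) - 1) ^ (n + 1) / (m : ℝ) ^ n with hσ
  have h0 : (0 : ℝ) ≤ C / ε := by positivity
  have hσpos : 0 < σ := lt_of_le_of_lt h0 hF
  have h2 : C ≤ ε * σ := by
    rw [div_lt_iff₀ hε] at hF
    linarith
  have h3 : (T.card : ℝ) ^ (n + 1) * σ ≤ (ε * x) * σ := by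
    refine le_trans h1 ?_
    calc (((n + 1 : ℕ) : ℝ) + 1) * K * x = C * x := by rw [hC]
      _ ≤ (ε * σ) * x := by
          apply mul_le_mul_of_nonneg_right h2 (by positivity)
      _ = _ := by ring
  exact le_of_mul_le_mul_right h3 hσpos

end Pool.Agent.H380R2
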